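import Pool.Agent.H21.FS.Fs

/-!
# LEMMA FS, the conclusion

`fs`: the slopes of the coordinate `i0` are polynomials of the time with coefficients which are
functions of the line, to `x₀ X` digits for every `x₀ < h`, outside a small event; and the coefficients
are functions of the context, up to few bits.
-/

set_option autoImplicit false

namespace Pool.FS21

open Finset Real Matrix
open Pool.Agent.H49.Ent Pool.Agent.H32.Dense Pool.STK Pool.POT Pool.FAD Pool.SLO Pool.TQ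
open Pool.BD64 (QHd)
open Pool.TT37 (dd con_d)
open Pool.BFL (Pb)
open Pool.K2S (Pe)

/-- Two times of one line are far apart. -/
theorem far_tm {Ω Λ : Type} [Fintype Ω] {p : Ω → ℝ} (hl : IsLaw p) (L : Ω → Λ) (T : Ω → ℤ)
    {X : ℕ} (hT : ∀ ω, 0 ≤ T ω ∧ T ω < 2 ^ X) {e σ : ℝ} (he : X * Real.log 2 - e ≤ CH p T L)
    (hσ1 : σ ≤ 1) (hX : 4 ≤ σ * X) :
    Pb (tup p L 1) (fun w => |((T (w 0) - T (w 1) : ℤ) : ℝ)| ≤ (2 : ℝ) ^ (-(σ * X)) * 2 ^ X) *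
      (σ * X / 2 * Real.log 2) ≤ 4 * (2 * e + 2 * Real.log 4) := by
  classical
  have h0 := hl.nonneg
  have hL2 : 0 < Real.log 2 := Real.log_pos (by norm_num)
  have hN : ((2 ^ X : ℕ) : ℝ) = 2 ^ X := by push_cast; rfl
  have hX2 : (0 : ℝ) < 2 ^ X := by positivity
  have hcast : ∀ ω, ((T ω).toNat : ℤ) = T ω := fun ω => Int.toNat_of_nonneg (hT ω).1
  have hcastR : ∀ ω, (((T ω).toNat : ℕ) : ℝ) = T ω := fun ω => by
    have := hcast ω
    exact_mod_cast congrArg (fun z : ℤ => (z : ℝ)) this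
  have hlt : ∀ ω, (T ω).toNat < 2 ^ X := by
    intro ω
    have h1 := (hT ω).2
    rw [← hcast ω] at h1
    exact_mod_cast h1
  have e1 : CH p (fun ω => (T ω).toNat) L = CH p T L := by
    refine CH_congr h0 ?_ ?_ (fun _ _ _ _ h => h) (fun _ _ _ _ h => h)
    · intro ω ω' _ _ h
      simp only [Prod.mk.injEq] at h
      rw [← hcast ω, ← hcast ω', h.1]
    · intro ω ω' _ _ h
      simp only [Prod.mk.injEq] at h
      show (T ω).toNat = (T ω').toNat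
      rw [h.1]
  have h1 := Pool.V1E.gp_far (K := 1) (N₀ := 2 ^ X) (x := σ * X - 2) hl L (fun ω => (T ω).toNat)
    (fun ω _ => hlt ω) (e := e) (by
      rw [hN, Real.log_pow, e1]
      exact he)
  have h2 : Pb (tup p L 1) (fun w => |((T (w 0) - T (w 1) : ℤ) : ℝ)| ≤
      (2 : ℝ) ^ (-(σ * X)) * 2 ^ X) ≤ Pb (tup p L 1) (fun v => (2 : ℝ) ^ (σ * X - 2) <
        Pool.D2N.gp (2 ^ X) (fun j => (T (v j)).toNat)) := by
    refine Pool.TT37.pb_mono (tup_isLaw hl L 1).nonneg fun w _ hw => ?_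
    have h3 := Pool.D2N.fac_le (N₀ := 2 ^ X) (t := fun j : Fin 2 => (T (w j)).toNat)
      (fun j => hlt _) (i := 0) (j := 1) (by norm_num)
    refine lt_of_lt_of_le ?_ h3
    rw [hcastR, hcastR, hN]
    have h4 : |(T (w 0) : ℝ) - T (w 1)| ≤ (2 : ℝ) ^ (-(σ * X)) * 2 ^ X := by
      have := hw
      push_cast at this
      exact this
    have h5 : (1 : ℝ) ≤ (2 : ℝ) ^ (-(σ * X)) * 2 ^ X := by
      rw [← Real.rpow_natCast, ← Real.rpow_add (by norm_num)]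
      refine Real.one_le_rpow (by norm_num) ?_
      have : σ * X ≤ 1 * X := mul_le_mul_of_nonneg_right hσ1 (Nat.cast_nonneg X)
      linarith
    rw [lt_div_iff₀ (by positivity)]
    have h6 : (2 : ℝ) ^ (σ * X - 2) * (|(T (w 0) : ℝ) - T (w 1)| + 1) ≤
        (2 : ℝ) ^ (σ * X - 2) * (2 * ((2 : ℝ) ^ (-(σ * X)) * 2 ^ X)) :=
      mul_le_mul_of_nonneg_left (by linarith) (by positivity)
    refine lt_of_le_of_lt h6 ?_
    have h7 : (2 : ℝ) ^ (σ * X - 2) * (2 * ((2 : ℝ) ^ (-(σ * X)) * 2 ^ X)) = 2 ^ X / 2 := by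
      have h8 : (2 : ℝ) ^ (σ * X - 2) * (2 : ℝ) ^ (-(σ * X)) = 1 / 4 := by
        rw [← Real.rpow_add (by norm_num)]
        have : σ * X - 2 + -(σ * X) = -2 := by ring
        rw [this, Real.rpow_neg (by norm_num)]
        norm_num
      calc (2 : ℝ) ^ (σ * X - 2) * (2 * ((2 : ℝ) ^ (-(σ * X)) * 2 ^ X)) =
            2 * ((2 : ℝ) ^ (σ * X - 2) * (2 : ℝ) ^ (-(σ * X))) * 2 ^ X := by ring
        _ = _ := by rw [h8]; ring
    rw [h7]
    linarith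
  have hP := Pool.TT37.pb_nonneg (tup_isLaw hl L 1).nonneg (fun v => (2 : ℝ) ^ (σ * X - 2) <
        Pool.D2N.gp (2 ^ X) (fun j => (T (v j)).toNat))
  have h9 : Pb (tup p L 1) (fun w => |((T (w 0) - T (w 1) : ℤ) : ℝ)| ≤
      (2 : ℝ) ^ (-(σ * X)) * 2 ^ X) * (σ * X / 2 * Real.log 2) ≤
      Pb (tup p L 1) (fun v => (2 : ℝ) ^ (σ * X - 2) <
        Pool.D2N.gp (2 ^ X) (fun j => (T (v j)).toNat)) * ((σ * X - 2) * Real.log 2) := by
    refine mul_le_mul h2 ?_ (by positivity) hP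
    refine mul_le_mul_of_nonneg_right ?_ hL2.le
    linarith
  refine h9.trans (h1.trans (le_of_eq ?_))
  push_cast
  ring

variable {c k n : ℕ}

/-- The time given the line. -/
theorem okd_tm {H : QHd c k n} {X : ℕ} {C d : ℝ} (ok : H.OkNS X C d) :
    X * Real.log 2 - 2 * d ≤ CH H.p (fun ω => H.tau (H.th ω)) H.line := by
  have h0 := ok.law.nonneg
  have h1 := okd_mi ok
  have h2 : MI H.p (fun ω => H.tau (H.th ω)) H.line H.b ≤ MI H.p H.th H.line H.b :=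
    MI_le_left h0 (X := H.th) (fun ω ω' _ _ e => by
      simp only [Prod.mk.injEq] at e
      rw [e.1])
  have h3 : CH H.p (fun ω => H.tau (H.th ω)) (fun ω => (H.line ω, H.b ω)) =
      CH H.p (fun ω => H.tau (H.th ω)) H.line := by
    refine CH_congr h0 (fun _ _ _ _ e => (Prod.ext_iff.mp e).1)
      (fun _ _ _ _ e => (Prod.ext_iff.mp e).1) (fun ω ω' _ _ e => (Prod.ext_iff.mp e).1) ?_
    intro ω ω' x y e
    exact Prod.ext e (line_det H ω ω' x y e)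
  have h4 := ok.t_f
  unfold MI at h2 h1
  rw [h3] at h2
  linarith

/-- Powers with a real exponent. -/
theorem ex_pow {a b : ℝ} (ha : 0 < a) : ∃ X0 : ℕ, ∀ X : ℕ, X0 ≤ X → b ≤ (2 : ℝ) ^ (a * X) := by
  obtain ⟨X0, h⟩ := ex_lin (a := a / 2) (b := b) (by positivity)
  refine ⟨X0, fun X hX => ?_⟩
  have h1 := h X hX
  have h2 : a / 2 * X ≤ (2 : ℝ) ^ (a * X) := by
    have h3 := Real.add_one_le_exp (a * X * Real.log 2)
    have h4 : Real.exp (a * X * Real.log 2) = (2 : ℝ) ^ (a * X) := by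
      rw [Real.rpow_def_of_pos (by norm_num)]
      congr 1
      ring
    rw [h4] at h3
    have h5 : (1 / 2 : ℝ) ≤ Real.log 2 := by
      have := Real.log_two_gt_d9
      linarith
    have h6 : 0 ≤ a * X := by positivity
    have h7 : a * X * (1 / 2) ≤ a * X * Real.log 2 := mul_le_mul_of_nonneg_left h5 h6
    linarith
  exact h1.trans h2

/-- The logarithm of the size. -/
theorem log_sz {x₀ σ : ℝ} {X Y : ℕ} (hx : x₀ ≤ 1) (hσ : 0 < σ) (hY : (Y : ℝ) ≤ (x₀ - σ) * X) :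
    Real.log (2 * (2 ^ Y * (2 : ℝ) ^ (σ * X) + 1) + 1) ≤ (1 + σ) * X + 3 := by
  have hX0 : (0 : ℝ) ≤ X := Nat.cast_nonneg X
  have hL1 : Real.log 2 ≤ 1 := by
    have := Real.log_two_lt_d9
    linarith
  have g1 : 2 * ((2 : ℝ) ^ Y * (2 : ℝ) ^ (σ * X) + 1) + 1 ≤ 5 * (2 : ℝ) ^ ((1 + σ) * X) := by
    have g2 : (2 : ℝ) ^ Y * (2 : ℝ) ^ (σ * X) ≤ (2 : ℝ) ^ ((1 + σ) * X) := by
      rw [← Real.rpow_natCast, ← Real.rpow_add (by norm_num)]
      refine Real.rpow_le_rpow_of_exponent_le (by norm_num) ?_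
      have g3 : (x₀ - σ) * X ≤ 1 * X := mul_le_mul_of_nonneg_right (by linarith) hX0
      linarith
    have g4 : (1 : ℝ) ≤ (2 : ℝ) ^ ((1 + σ) * X) :=
      Real.one_le_rpow (by norm_num) (by positivity)
    linarith
  refine (Real.log_le_log (by positivity) g1).trans ?_
  rw [Real.log_mul (by norm_num) (by positivity), Real.log_rpow (by norm_num)]
  have g5 : Real.log 5 ≤ 3 := by
    have h1 := Real.log_le_sub_one_of_pos (show (0 : ℝ) < 5 / 2 by norm_num)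
    have g6 : Real.log 5 = Real.log (5 / 2) + Real.log 2 := by
      rw [← Real.log_mul (by norm_num) (by norm_num)]
      norm_num
    linarith
  have g7 : (1 + σ) * X * Real.log 2 ≤ (1 + σ) * X * 1 :=
    mul_le_mul_of_nonneg_left hL1 (by positivity)
  linarith

theorem hWk {n k : ℝ} (hn : 0 ≤ n) (hk : 0 ≤ k) :
    8 * ((n + 1) ^ 2 * k) ≤ (n + 2) ^ 2 * (k + 1) * 8 := by
  have h1 : (n + 1) ^ 2 ≤ (n + 2) ^ 2 := by nlinarith
  have h2 : (n + 1) ^ 2 * k ≤ (n + 2) ^ 2 * (k + 1) :=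
    mul_le_mul h1 (by linarith) hk (by positivity)
  linarith

theorem hWa {n k : ℝ} (hn : 0 ≤ n) (hk : 0 ≤ k) : n + 1 ≤ (n + 2) ^ 2 * (k + 1) * 8 := by
  have h1 : n + 1 ≤ (n + 2) ^ 2 := by nlinarith
  have h2 : (n + 2) ^ 2 * 1 ≤ (n + 2) ^ 2 * (k + 1) :=
    mul_le_mul_of_nonneg_left (by linarith) (by positivity)
  have h3 : 0 ≤ (n + 2) ^ 2 * (k + 1) := by positivity
  linarith

/-- The last estimate. -/
theorem num_fin {a κ W σ ε₀ δ io X V V2 : ℝ} (ha : 1 ≤ a) (hκ : 0 ≤ κ) (hW1 : a ≤ W)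
    (hW2 : 8 * (a ^ 2 * κ) ≤ W) (hσ : 0 < σ) (hε₀ : 0 < ε₀)
    (hδ : δ = min ε₀ 1 / (W * (W * (3 + σ)))) (hio : io ≤ ε₀ / (2 * a)) (hX : 0 ≤ X)
    (hd : a * κ * (Real.log 2 + V2) + 1 ≤ ε₀ / 4 * X) (hV : V ≤ (1 + σ) * X + 3) :
    a * (io * X) + a * κ * (Real.log 2 + ((a * (W * δ) + a ^ 2 * δ) * V + V2)) ≤ ε₀ * X := by
  have hW0 : 0 < W := by linarith
  have hm0 : 0 < min ε₀ 1 := lt_min hε₀ one_pos
  have hδ0 : 0 < δ := by rw [hδ]; positivity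
  have e1 : a * (io * X) ≤ ε₀ / 2 * X := by
    have h1 : a * io ≤ ε₀ / 2 := by
      rw [le_div_iff₀ (by positivity)] at hio
      linarith
    calc a * (io * X) = a * io * X := by ring
      _ ≤ _ := mul_le_mul_of_nonneg_right h1 hX
  have e2 : a * κ * (a * (W * δ) + a ^ 2 * δ) ≤ min ε₀ 1 / (4 * (3 + σ)) := by
    have h1 : a * (W * δ) + a ^ 2 * δ ≤ 2 * (a * (W * δ)) := by
      have : a * (a * δ) ≤ a * (W * δ) :=
        mul_le_mul_of_nonneg_left (mul_le_mul_of_nonneg_right hW1 hδ0.le) (by linarith)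
      nlinarith
    have h2 : a * κ * (a * (W * δ) + a ^ 2 * δ) ≤ a * κ * (2 * (a * (W * δ))) :=
      mul_le_mul_of_nonneg_left h1 (by positivity)
    have h3 : a * κ * (2 * (a * (W * δ))) = 8 * (a ^ 2 * κ) * (W * δ) / 4 := by ring
    have h4 : 8 * (a ^ 2 * κ) * (W * δ) ≤ W * (W * δ) :=
      mul_le_mul_of_nonneg_right hW2 (by positivity)
    have h5 : W * (W * δ) = min ε₀ 1 / (3 + σ) := by
      rw [hδ]
      field_simp
    have h6 : min ε₀ 1 / (4 * (3 + σ)) = min ε₀ 1 / (3 + σ) / 4 := by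
      field_simp
    rw [h6]
    linarith
  have e3 : a * κ * (a * (W * δ) + a ^ 2 * δ) * V ≤ ε₀ / 4 * X + 1 := by
    have h0 : 0 ≤ a * κ * (a * (W * δ) + a ^ 2 * δ) := by positivity
    have h1 : 0 ≤ (1 + σ) * X + 3 := by positivity
    have h2 : a * κ * (a * (W * δ) + a ^ 2 * δ) * V ≤
        min ε₀ 1 / (4 * (3 + σ)) * ((1 + σ) * X + 3) :=
      (mul_le_mul_of_nonneg_left hV h0).trans (mul_le_mul_of_nonneg_right e2 h1)
    have h3 : (1 + σ) * X + 3 ≤ (3 + σ) * X + 3 := by nlinarith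
    have h4 : min ε₀ 1 / (4 * (3 + σ)) * ((1 + σ) * X + 3) ≤
        min ε₀ 1 / (4 * (3 + σ)) * ((3 + σ) * X + 3) :=
      mul_le_mul_of_nonneg_left h3 (by positivity)
    have h5 : min ε₀ 1 / (4 * (3 + σ)) * ((3 + σ) * X + 3) =
        min ε₀ 1 / 4 * X + min ε₀ 1 * 3 / (4 * (3 + σ)) := by
      field_simp
    have h6 : min ε₀ 1 / 4 * X ≤ ε₀ / 4 * X :=
      mul_le_mul_of_nonneg_right (by linarith [min_le_left ε₀ 1]) hX
    have h7 : min ε₀ 1 * 3 / (4 * (3 + σ)) ≤ 1 := by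
      rw [div_le_one (by positivity)]
      linarith [min_le_right ε₀ 1]
    linarith
  calc a * (io * X) + a * κ * (Real.log 2 + ((a * (W * δ) + a ^ 2 * δ) * V + V2)) =
        a * (io * X) + a * κ * (a * (W * δ) + a ^ 2 * δ) * V +
          a * κ * (Real.log 2 + V2) := by ring
    _ ≤ _ := by linarith

/-- **LEMMA FS.** -/
theorem fs (c k n : ℕ) (hn : 1 ≤ n) {h x₀ σ ε₀ : ℝ} (hh : 0 < h) (hh1 : h ≤ 1) (hx₀ : 0 < x₀)
    (hxh : x₀ < h) (hσ : 0 < σ) (hε₀ : 0 < ε₀) :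
    ∃ io ϖ : ℝ, 0 < io ∧ 0 < ϖ ∧ ∀ C : ℝ, 1 ≤ C → ∃ X0 : ℕ,
    ∀ (H : QHd c k n) (ρ β : Type) (S : H.Ω → ρ) (Wd : H.Ω → β) (Z : H.Ω → Fin c → ℤ)
      (F : β → H.Tt → H.B → Fin c → ℝ) (i0 : Fin c) (X : ℕ), X0 ≤ X →
      FsH H S Wd Z F i0 X C (io * X) h ϖ →
      ∃ ep : (Fin c → ℤ) × (H.Vt × H.B) → Fin (n + 1) → Fin k → ℝ,
        (∀ z a u, |ep z a u| ≤ (2 : ℝ) ^ (σ * X)) ∧
        Pb H.p (fun ω => ¬ ∀ u, |H.E (H.th ω) u i0 -
          ∑ a, ep (H.line ω) a u * ((H.tau (H.th ω) : ℝ) / 2 ^ X) ^ (a : ℕ)| ≤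
            (2 : ℝ) ^ (-(x₀ * X))) ≤ ε₀ ∧
        ∀ Y : ℕ, (Y : ℝ) ≤ (x₀ - σ) * X →
          CH H.p (fun ω (v : Fin (n + 1) × Fin k) => ⌊(2 : ℝ) ^ Y * ep (H.line ω) v.1 v.2⌋)
            H.b ≤ ε₀ * X := by
  classical
  have hL2 : 0 < Real.log 2 := Real.log_pos (by norm_num)
  have hL1 : Real.log 2 ≤ 1 := by
    have := Real.log_two_lt_d9
    linarith
  have hn0 : (0 : ℝ) ≤ n := Nat.cast_nonneg n
  have hk0 : (0 : ℝ) ≤ k := Nat.cast_nonneg k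
  obtain ⟨x₁, hx₁⟩ : ∃ x₁ : ℝ, x₁ = (x₀ + h) / 2 := ⟨_, rfl⟩
  obtain ⟨W, hW⟩ : ∃ W : ℝ, W = ((n : ℝ) + 2) ^ 2 * (k + 1) * 8 := ⟨_, rfl⟩
  have hW8 : 8 ≤ W := by
    rw [hW]
    have h1 : (1 : ℝ) ≤ ((n : ℝ) + 2) ^ 2 := one_le_pow₀ (by linarith)
    have h2 : (1 : ℝ) ≤ (k : ℝ) + 1 := by linarith
    nlinarith [mul_le_mul h1 h2 zero_le_one (by positivity)]
  obtain ⟨δ, hδ⟩ : ∃ δ : ℝ, δ = min ε₀ 1 / (W * (W * (3 + σ))) := ⟨_, rfl⟩
  have hm0 : 0 < min ε₀ 1 := lt_min hε₀ one_pos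
  have hδ0 : 0 < δ := by
    rw [hδ]
    positivity
  obtain ⟨s', hs'⟩ : ∃ s' : ℝ, s' = min (min (σ / 2) ((h - x₀) / 2)) 1 / (n + 3) := ⟨_, rfl⟩
  have hs'm : 0 < min (min (σ / 2) ((h - x₀) / 2)) 1 :=
    lt_min (lt_min (by positivity) (by linarith)) one_pos
  have hs'0 : 0 < s' := by
    rw [hs']
    positivity
  have hs'n : s' * (n + 3) = min (min (σ / 2) ((h - x₀) / 2)) 1 := by
    rw [hs']
    field_simp
  have hs'1 : s' * (n + 3) ≤ 1 := hs'n.le.trans (min_le_right _ _)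
  have hs'2 : s' * (n + 3) ≤ σ / 2 := hs'n.le.trans ((min_le_left _ _).trans (min_le_left _ _))
  have hs'3 : s' * (n + 3) ≤ (h - x₀) / 2 :=
    hs'n.le.trans ((min_le_left _ _).trans (min_le_right _ _))
  have hs'4 : s' ≤ 1 := by nlinarith
  obtain ⟨io1, ϖ, hio1, hϖ, H1⟩ := fs_dd c k n hn (x₀ := x₁) hh hh1 (by rw [hx₁]; linarith)
    (by rw [hx₁]; linarith) hδ0
  obtain ⟨io, hio⟩ : ∃ io : ℝ, io = min io1 (min (δ * s' * Real.log 2 / 64) (ε₀ / (2 * (n + 1)))) :=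
    ⟨_, rfl⟩
  have hio0 : 0 < io := by
    rw [hio]
    exact lt_min hio1 (lt_min (by positivity) (by positivity))
  have hi1 : io ≤ io1 := by rw [hio]; exact min_le_left _ _
  have hi2 : io ≤ δ * s' * Real.log 2 / 64 := by
    rw [hio]
    exact (min_le_right _ _).trans (min_le_left _ _)
  have hi3 : io ≤ ε₀ / (2 * (n + 1)) := by
    rw [hio]
    exact (min_le_right _ _).trans (min_le_right _ _)
  refine ⟨io, ϖ, hio0, hϖ, fun C hC => ?_⟩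
  obtain ⟨X1, H1⟩ := H1 C hC
  obtain ⟨X2, hX2⟩ := ex_lin (a := s') (b := 4) hs'0
  obtain ⟨X3, hX3⟩ := ex_pow (a := σ / 2) (b := (n + 1) * (C * 2 ^ (n + 1))) (by positivity)
  obtain ⟨X4, hX4⟩ := ex_lin (a := δ * s' * Real.log 2 / 32) (b := Real.log 4) (by positivity)
  obtain ⟨X5, hX5⟩ := ex_lin (a := ε₀ / 4) (b := ((n : ℝ) + 1) * k * (Real.log 2 +
    Real.log (2 * ((n + 1) * 2 ^ (n + 1) + 1) + 1)) + 1) (by positivity)
  refine ⟨max (max X1 (max X2 X3)) (max (max X4 X5) 1), fun H ρ β S Wd Z F i0 X hX hH => ?_⟩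
  obtain ⟨b1, b2⟩ := max_le_iff.1 hX
  obtain ⟨b1, b3⟩ := max_le_iff.1 b1
  obtain ⟨b3, b4⟩ := max_le_iff.1 b3
  obtain ⟨b5, b6⟩ := max_le_iff.1 b2
  obtain ⟨b7, b8⟩ := max_le_iff.1 b5
  have hX1 : (1 : ℝ) ≤ X := by exact_mod_cast b6
  have hX0 : (0 : ℝ) < X := by linarith
  replace hX2 := hX2 X b3
  replace hX3 := hX3 X b4
  replace hX4 := hX4 X b7
  replace hX5 := hX5 X b8
  have hl := hH.ok.law
  have h2X : (0 : ℝ) < 2 ^ X := by positivity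
  obtain ⟨s, hs⟩ : ∃ s : ℝ, s = (2 : ℝ) ^ (-(s' * X)) := ⟨_, rfl⟩
  have hs0 : 0 < s := by rw [hs]; positivity
  have hs1 : s ≤ 1 := by
    rw [hs]
    exact Real.rpow_le_one_of_one_le_of_nonpos (by norm_num) (by nlinarith)
  -- the vectors
  have k1 := H1 H ρ β S Wd Z F i0 X b1
    { hH with
      ok := { hH.ok with
        h0 := hH.ok.h0.trans (mul_le_mul_of_nonneg_right hi1 hX0.le)
        h2 := hH.ok.h2.trans (mul_le_mul_of_nonneg_right hi1 hX0.le)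
        y_f := by
          have h1 := hH.ok.y_f
          have h2 := mul_le_mul_of_nonneg_right hi1 hX0.le
          linarith
        t_f := by
          have h1 := hH.ok.t_f
          have h2 := mul_le_mul_of_nonneg_right hi1 hX0.le
          linarith }
      wd := hH.wd.trans (mul_le_mul_of_nonneg_right hi1 hX0.le)
      nf := fun G hG => (hH.nf G hG).trans (by
        have h2 := mul_le_mul_of_nonneg_right hi1 hX0.le
        linarith) }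
  obtain ⟨E', hE'⟩ : ∃ E' : H.Tt → Fin k → Fin 1 → ℝ, E' = fun t u _ => H.E t u i0 := ⟨_, rfl⟩
  obtain ⟨e, he⟩ : ∃ e : ℝ, e = (2 : ℝ) ^ (-(x₁ * X)) := ⟨_, rfl⟩
  have he0 : 0 < e := by rw [he]; positivity
  have k2 : Pb (tup H.p H.line (n + 2)) (fun w => ∃ u i,
      e < |dd n H.tau E' u (fun j => H.th (w j.succ)) i|) ≤ δ := by
    refine le_trans (le_of_eq ?_) k1
    rw [Pool.K2S.Pe_eq]
    unfold Pb
    refine Finset.sum_congr rfl fun w _ => ?_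
    have this : (∃ u i, e < |dd n H.tau E' u (fun j => H.th (w j.succ)) i|) ↔
        ∃ u, (2 : ℝ) ^ (-(x₁ * X)) < |dd n H.tau H.E u (fun j => H.th (w j.succ)) i0| := by
      rw [hE', he]
      constructor
      · rintro ⟨u, i, hu⟩
        exact ⟨u, hu⟩
      · rintro ⟨u, hu⟩
        exact ⟨u, 0, hu⟩
    by_cases hw : ∃ u, (2 : ℝ) ^ (-(x₁ * X)) <
        |dd n H.tau H.E u (fun j => H.th (w j.succ)) i0|
    · rw [if_pos (this.2 hw), if_pos hw]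
    · rw [if_neg fun h => hw (this.1 h), if_neg hw]
  -- the times
  have k3 : Pb (tup H.p H.line 1) (fun w =>
      |((H.tau (H.th (w 0)) - H.tau (H.th (w 1)) : ℤ) : ℝ)| ≤ s * 2 ^ X) ≤ δ := by
    have h1 := far_tm hl H.line (fun ω => H.tau (H.th ω)) hH.ok.tau_r (okd_tm hH.ok) hs'4 hX2
    rw [← hs] at h1
    have h2 : 0 < s' * X / 2 * Real.log 2 := by positivity
    rw [← le_div_iff₀ h2] at h1
    refine h1.trans ?_
    rw [div_le_iff₀ h2]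
    have h3 := mul_le_mul_of_nonneg_right hi2 hX0.le
    linarith
  -- the polynomials
  obtain ⟨ep, hb, hP⟩ := con_d hl H.line H.th H.tau n E' (C := C) (s := s) (e := e) hs0 hs1
    hH.ok.tau_r (fun ω u i => by rw [hE']; exact hH.ok.E_b ω u i0) k2 k3
  have hpw : (2 / s) ^ (n + 1) ≤ 2 ^ (n + 1) * (2 : ℝ) ^ (σ / 2 * X) := by
    rw [div_pow, div_eq_mul_inv]
    refine mul_le_mul_of_nonneg_left ?_ (by positivity)
    rw [hs, ← Real.rpow_natCast ((2 : ℝ) ^ (-(s' * X))), ← Real.rpow_mul (by norm_num),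
      ← Real.rpow_neg (by norm_num)]
    refine Real.rpow_le_rpow_of_exponent_le (by norm_num) ?_
    push_cast
    nlinarith [mul_nonneg hs'0.le hX0.le]
  have hCb : (n + 1) * (C * (2 / s) ^ (n + 1)) ≤ (2 : ℝ) ^ (σ * X) := by
    have e1 : (2 : ℝ) ^ (σ * X) = (2 : ℝ) ^ (σ / 2 * X) * (2 : ℝ) ^ (σ / 2 * X) := by
      rw [← Real.rpow_add (by norm_num)]
      congr 1
      ring
    rw [e1]
    calc (n + 1) * (C * (2 / s) ^ (n + 1)) ≤
          (n + 1) * (C * (2 ^ (n + 1) * (2 : ℝ) ^ (σ / 2 * X))) := by gcongr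
      _ = (n + 1) * (C * 2 ^ (n + 1)) * (2 : ℝ) ^ (σ / 2 * X) := by ring
      _ ≤ _ := mul_le_mul_of_nonneg_right hX3 (by positivity)
  have hmass : (n + 2) * δ + (n + 2) ^ 2 * δ ≤ W * δ := by
    have h1 : ((n : ℝ) + 2) + (n + 2) ^ 2 ≤ W := by
      rw [hW]
      nlinarith [mul_nonneg (sq_nonneg ((n : ℝ) + 2)) hk0]
    have := mul_le_mul_of_nonneg_right h1 hδ0.le
    linarith
  have hWδ : W * δ * (W * (3 + σ)) = min ε₀ 1 := by
    rw [hδ]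
    field_simp
  have hWδ1 : W * δ ≤ ε₀ := by
    have h1 : 1 ≤ W * (3 + σ) := by nlinarith
    have h2 : 0 ≤ W * δ := by positivity
    calc W * δ = W * δ * 1 := (mul_one _).symm
      _ ≤ W * δ * (W * (3 + σ)) := mul_le_mul_of_nonneg_left h1 h2
      _ ≤ ε₀ := hWδ.le.trans (min_le_left _ _)
  have herr : e / s ^ (n + 2) ≤ (2 : ℝ) ^ (-(x₀ * X)) := by
    rw [he, hs, ← Real.rpow_natCast ((2 : ℝ) ^ (-(s' * X))), ← Real.rpow_mul (by norm_num),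
      ← Real.rpow_sub (by norm_num)]
    refine Real.rpow_le_rpow_of_exponent_le (by norm_num) ?_
    push_cast
    have h1 : s' * (n + 2) ≤ (h - x₀) / 2 := by nlinarith
    have h2 := mul_le_mul_of_nonneg_right h1 hX0.le
    rw [hx₁]
    linarith
  have hP' : Pb H.p (fun ω => ¬ ∀ (i : Fin 1) (u : Fin k), |E' (H.th ω) u i -
      ∑ a, ep (H.line ω) a u 0 * ((H.tau (H.th ω) : ℝ) / 2 ^ X) ^ (a : ℕ)| ≤
        (2 : ℝ) ^ (-(x₀ * X))) ≤ W * δ := by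
    have h1 : Pb H.p (fun ω => ¬ ∀ (i : Fin 1) (u : Fin k), |E' (H.th ω) u i -
        ∑ a, ep (H.line ω) a u 0 * ((H.tau (H.th ω) : ℝ) / 2 ^ X) ^ (a : ℕ)| ≤
        (2 : ℝ) ^ (-(x₀ * X))) ≤ Pb H.p (fun ω => ¬ ∀ u i, |E' (H.th ω) u i -
        ∑ a, ep (H.line ω) a u i * ((H.tau (H.th ω) : ℝ) / 2 ^ X) ^ (a : ℕ)| ≤
          e / s ^ (n + 2)) := by
      refine Pool.TT37.pb_mono hl.nonneg fun ω _ h1 h2 => h1 fun i u => ?_
      have hi : i = 0 := Subsingleton.elim _ _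
      rw [hi]
      exact (h2 u 0).trans herr
    exact h1.trans (hP.trans hmass)
  refine ⟨fun z a u => ep z a u 0, fun z a u => (hb z a u 0).trans hCb, ?_, ?_⟩
  · have h1 : Pb H.p (fun ω => ¬ ∀ u, |H.E (H.th ω) u i0 -
        ∑ a, ep (H.line ω) a u 0 * ((H.tau (H.th ω) : ℝ) / 2 ^ X) ^ (a : ℕ)| ≤
            (2 : ℝ) ^ (-(x₀ * X))) ≤
        Pb H.p (fun ω => ¬ ∀ (i : Fin 1) (u : Fin k), |E' (H.th ω) u i -
        ∑ a, ep (H.line ω) a u 0 * ((H.tau (H.th ω) : ℝ) / 2 ^ X) ^ (a : ℕ)| ≤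
        (2 : ℝ) ^ (-(x₀ * X))) := by
      refine Pool.TT37.pb_mono hl.nonneg fun ω _ h1 h2 => h1 fun u => ?_
      have := h2 0 u
      rw [hE'] at this
      exact this
    exact h1.trans (hP'.trans hWδ1)
  · intro Y hY
    have hVb := log_sz (hxh.le.trans hh1) hσ hY
    have hDY : (2 : ℝ) ^ Y * ((n + 1) * ((2 : ℝ) ^ (-(x₀ * X)) * (2 / s) ^ (n + 1))) + 1 ≤
        (n + 1) * 2 ^ (n + 1) + 1 := by
      have h1 : (2 : ℝ) ^ Y * ((n + 1) * ((2 : ℝ) ^ (-(x₀ * X)) * (2 / s) ^ (n + 1))) ≤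
          (2 : ℝ) ^ Y * ((n + 1) * ((2 : ℝ) ^ (-(x₀ * X)) *
            (2 ^ (n + 1) * (2 : ℝ) ^ (σ / 2 * X)))) := by gcongr
      have h2 : (2 : ℝ) ^ Y * ((2 : ℝ) ^ (-(x₀ * X)) * (2 : ℝ) ^ (σ / 2 * X)) ≤ 1 := by
        rw [← Real.rpow_natCast, ← Real.rpow_add (by norm_num), ← Real.rpow_add (by norm_num)]
        refine Real.rpow_le_one_of_one_le_of_nonpos (by norm_num) ?_
        have h5 : 0 ≤ σ * X := by positivity
        linarith
      have h3 : (2 : ℝ) ^ Y * ((n + 1) * ((2 : ℝ) ^ (-(x₀ * X)) *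
            (2 ^ (n + 1) * (2 : ℝ) ^ (σ / 2 * X)))) = (n + 1) * 2 ^ (n + 1) *
            ((2 : ℝ) ^ Y * ((2 : ℝ) ^ (-(x₀ * X)) * (2 : ℝ) ^ (σ / 2 * X))) := by ring
      have h4 : (n + 1 : ℝ) * 2 ^ (n + 1) *
            ((2 : ℝ) ^ Y * ((2 : ℝ) ^ (-(x₀ * X)) * (2 : ℝ) ^ (σ / 2 * X))) ≤
            (n + 1) * 2 ^ (n + 1) * 1 := mul_le_mul_of_nonneg_left h2 (by positivity)
      linarith
    have hc := Pool.TC.coef_few hl H.line H.th H.b (line_det H) H.tau (c := 1) (k := k) (X := X) n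
      E' (C := (2 : ℝ) ^ (σ * X)) (s := s) (e := (2 : ℝ) ^ (-(x₀ * X))) (δ₁ := W * δ) (δ₂ := δ)
      (io := io * X) (D := (n + 1) * 2 ^ (n + 1) + 1) (by positivity) hs0 hs1 (by positivity)
      hH.ok.tau_r (fun z a _ u => ep z a u 0) (fun z a _ u => (hb z a u 0).trans hCb) hP' k3
      (okd_mi hH.ok) Y hDY
    have hcc : CH H.p (fun ω (v : Fin (n + 1) × Fin k) =>
        ⌊(2 : ℝ) ^ Y * ep (H.line ω) v.1 v.2 0⌋) H.b ≤
        CH H.p (fun ω (v : Fin (n + 1) × (Fin 1 × Fin k)) =>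
          ⌊(2 : ℝ) ^ Y * ep (H.line ω) v.1 v.2.2 0⌋) H.b := by
      refine CH_mono_left hl.nonneg fun ω ω' _ _ e => ?_
      simp only [Prod.mk.injEq] at e
      funext v
      exact congrFun e.1 (v.1, (0, v.2))
    refine hcc.trans (hc.trans ?_)
    refine le_trans (le_of_eq ?_) (num_fin (a := (n : ℝ) + 1) (κ := (k : ℝ)) (by linarith) hk0
      (hW.symm ▸ hWa hn0 hk0) (hW.symm ▸ hWk hn0 hk0) hσ hε₀ hδ hi3 hX0.le hX5 hVb)
    push_cast
    ring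

end Pool.FS21
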