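import Pool.Agent.H21.FS.Ine
import Pool.Agent.H21.FS.Pl

/-!
# LEMMA FS for one block of digits

`qh_poly`: a picture of degree `n` in which only the coordinate `i0` has slopes; the digits
`(k0, k1]` of the height of `i0` are not full given the digits before, the heights of the other
coordinates, the slow digits and the record. Then the slopes of `i0` are polynomials of degree `n` in
the time, to `k0 - σ X` digits, and the coefficients are functions of the context up to few bits.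
-/

set_option autoImplicit false

namespace Pool.FS21

open Finset Real Matrix
open Pool.Agent.H49.Ent Pool.Agent.H32.Dense Pool.STK Pool.POT Pool.FAD Pool.SLO Pool.TQ
open Pool.BD64 (QHd body_dcs)
open Pool.TT37 (dd con_d)
open Pool.LPX (tp)
open Pool.BFL (Pb)
open Pool.K2S (Pe)

variable {c k n : ℕ}

/-- **The hypotheses of FS for the block `(k0, k1]`.** -/
structure FbH (H : QHd c k n) {ρ β : Type} (S : H.Ω → ρ) (Wd : H.Ω → β) (Z : H.Ω → Fin c → ℤ)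
    (F : β → H.Tt → H.B → Fin c → ℝ) (i0 : Fin c) (X k0 k1 : ℕ) (C d h ϖ : ℝ) : Prop where
  ok : H.OkNS X C d
  E0 : ∀ ω u i, i ≠ i0 → H.E (H.th ω) u i = 0
  Z_b : ∀ ω i, |(Z ω i : ℝ)| ≤ C * 2 ^ X
  rel : ∀ ω, 0 < H.p ω → ∀ i,
    |(H.hgt ω i : ℝ) - (Z ω i - F (Wd ω) (H.th ω) (H.b ω) i)| ≤ C
  wd : MI H.p H.hgt Wd (fun ω => (H.th ω, H.b ω)) ≤ d
  SY : Det H.p (fun ω => (Wd ω, (H.th ω, H.b ω))) S
  nf : ∀ G : H.Ω → Prop, ϖ ≤ Pe H.p G → 0 < Pe H.p G →
    CH (cond H.p G True) (fun ω => bl X k1 i0 (Z ω)) (fun ω => (bl X k0 i0 (Z ω), (Wd ω, S ω))) ≤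
      (1 - h) * ((k1 : ℝ) - k0) * Real.log 2 + d

theorem FbH.fb {H : QHd c k n} {ρ β : Type} {S : H.Ω → ρ} {Wd : H.Ω → β} {Z : H.Ω → Fin c → ℤ}
    {F : β → H.Tt → H.B → Fin c → ℝ} {i0 : Fin c} {X k0 k1 : ℕ} {C d h ϖ : ℝ}
    (hH : FbH H S Wd Z F i0 X k0 k1 C d h ϖ) :
    FbOk H.p H.line H.th H.b H.hgt S Wd Z F i0 X k0 k1 C d h ϖ :=
  ⟨hH.ok.law, line_det H, okd_mi hH.ok, hH.Z_b, hH.rel, hH.wd, hH.SY, hH.nf⟩

/-- A better bound of the informations. -/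
theorem okd_mono {H : QHd c k n} {X : ℕ} {C d d' : ℝ} (ok : H.OkNS X C d) (h : d ≤ d') :
    H.OkNS X C d' :=
  { ok with
    h0 := ok.h0.trans h
    h2 := ok.h2.trans h
    y_f := by
      have := ok.y_f
      linarith
    t_f := by
      have := ok.t_f
      linarith }

theorem FbH.mono {H : QHd c k n} {ρ β : Type} {S : H.Ω → ρ} {Wd : H.Ω → β} {Z : H.Ω → Fin c → ℤ}
    {F : β → H.Tt → H.B → Fin c → ℝ} {i0 : Fin c} {X k0 k1 : ℕ} {C d d' h ϖ : ℝ}
    (hH : FbH H S Wd Z F i0 X k0 k1 C d h ϖ) (hd : d ≤ d') :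
    FbH H S Wd Z F i0 X k0 k1 C d' h ϖ :=
  { hH with
    ok := okd_mono hH.ok hd
    wd := hH.wd.trans hd
    nf := fun G h1 h2 => (hH.nf G h1 h2).trans (by linarith) }

/-- The column of the coordinate. -/
theorem col_zero {H : QHd c k n} {i0 : Fin c} {N : ℕ} (hN : N = n + 2)
    (E0 : ∀ ω u i, i ≠ i0 → H.E (H.th ω) u i = 0) {A : Matrix (Fin c) (Fin c) ℝ}
    (hA : A.det ≠ 0) {s : Fin (n + 2) → H.Ω} {v : ℝ}
    (hcol : ∀ b, (∃ u, (fun i => A i b) = dd n H.tau H.E u fun j => H.th (s j)) ∨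
      ∃ j, (fun i => A i b) = Pi.single j v) (i : Fin c) (hi : i ≠ i0) : A i (bg i0 A) = 0 := by
  have _ := hN
  have hne := bg_ne i0 hA
  rcases hcol (bg i0 A) with ⟨u, hu⟩ | ⟨j, hj⟩
  · have h1 := congrFun hu i
    beta_reduce at h1
    rw [h1]
    unfold dd
    split_ifs
    · refine Finset.sum_eq_zero fun j _ => ?_
      rw [E0 _ u i hi, mul_zero]
    · rfl
  · have h1 := congrFun hj i
    have h2 := congrFun hj i0
    beta_reduce at h1 h2
    rw [h1]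
    rw [h2] at hne
    rw [Pi.single_apply] at hne ⊢
    by_cases h3 : i0 = j
    · rw [if_neg (fun h => hi (h.trans h3.symm))]
    · rw [if_neg h3] at hne
      exact absurd rfl hne

/-- **The vectors of `n + 2` times are short.** -/
theorem fb_dd (c k n : ℕ) (hn : 1 ≤ n) {h κ ε₀ : ℝ} (hh : 0 < h) (hh1 : h ≤ 1) (hκ : 0 < κ)
    (hε₀ : 0 < ε₀) :
    ∃ io ϖ : ℝ, 0 < io ∧ 0 < ϖ ∧ ∀ C : ℝ, 1 ≤ C → ∃ X0 : ℕ,
    ∀ (H : QHd c k n) (ρ β : Type) (S : H.Ω → ρ) (Wd : H.Ω → β) (Z : H.Ω → Fin c → ℤ)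
      (F : β → H.Tt → H.B → Fin c → ℝ) (i0 : Fin c) (X k0 k1 : ℕ), X0 ≤ X → k0 ≤ k1 → k1 ≤ X →
      κ * X ≤ (k1 : ℝ) - k0 → FbH H S Wd Z F i0 X k0 k1 C (io * X) h ϖ →
      Pe (tup H.p H.line (n + 2)) (fun w => ∃ u, (1 / 2 : ℝ) ^ k0 <
        |dd n H.tau H.E u (fun j => H.th (w j.succ)) i0|) ≤ ε₀ := by
  classical
  rcases Nat.eq_zero_or_pos c with rfl | hc
  · exact ⟨1, 1, one_pos, one_pos, fun C _ => ⟨0, fun H ρ β S Wd Z F i0 => i0.elim0⟩⟩
  have hcR : (0 : ℝ) < c := by exact_mod_cast hc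
  have hc1 : (1 : ℝ) ≤ c := by exact_mod_cast hc
  have hL2 : 0 < Real.log 2 := Real.log_pos (by norm_num)
  have hL1 : Real.log 2 ≤ 1 := by
    have := Real.log_two_lt_d9
    linarith
  obtain ⟨κ', hκ'⟩ : ∃ κ' : ℝ, κ' = min κ 1 := ⟨_, rfl⟩
  have hκ'0 : 0 < κ' := by rw [hκ']; exact lt_min hκ one_pos
  have hκ'1 : κ' ≤ 1 := by rw [hκ']; exact min_le_right _ _
  have hκ'2 : κ' ≤ κ := by rw [hκ']; exact min_le_left _ _
  obtain ⟨g, hg⟩ : ∃ g : ℝ, g = h * κ' * Real.log 2 := ⟨_, rfl⟩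
  have hg0 : 0 < g := by rw [hg]; positivity
  -- the constants
  obtain ⟨η, hη⟩ : ∃ η : ℝ, η = g * ε₀ / 32 := ⟨_, rfl⟩
  have hη0 : 0 < η := by rw [hη]; positivity
  obtain ⟨io1, hio1, hB⟩ := body_dcs c k n hn η hη0
  obtain ⟨N, hN⟩ : ∃ N : ℝ, N = (n : ℝ) + 4 := ⟨_, rfl⟩
  have hN4 : 4 ≤ N := by
    rw [hN]
    have : (0 : ℝ) ≤ n := Nat.cast_nonneg n
    linarith
  obtain ⟨ϖ, hϖ⟩ : ∃ ϖ : ℝ, ϖ = g * ε₀ / (64 * c) := ⟨_, rfl⟩
  have hϖ0 : 0 < ϖ := by rw [hϖ]; positivity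
  obtain ⟨io, hio⟩ : ∃ io : ℝ, io = min io1 (min (g * ε₀ / (32 * N)) (g / 32)) := ⟨_, rfl⟩
  have hio0 : 0 < io := by
    rw [hio]
    exact lt_min hio1 (lt_min (by positivity) (by positivity))
  have hi1 : io ≤ io1 := by rw [hio]; exact min_le_left _ _
  have hi2 : io ≤ g * ε₀ / (32 * N) := by
    rw [hio]
    exact (min_le_right _ _).trans (min_le_left _ _)
  have hi3 : io ≤ g / 32 := by
    rw [hio]
    exact (min_le_right _ _).trans (min_le_right _ _)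
  obtain ⟨K, hK⟩ := exists_nat_gt (64 * c / (ε₀ * g))
  have hK0 : 0 < K := by
    have : (0 : ℝ) < K := lt_of_le_of_lt (by positivity) hK
    exact_mod_cast this
  have hKR : (0 : ℝ) < K := by exact_mod_cast hK0
  refine ⟨io, ϖ, hio0, hϖ0, fun C hC => ?_⟩
  obtain ⟨K1, r, X1, hB⟩ := hB C hC
  obtain ⟨K2, hK2⟩ : ∃ K2 : ℝ, K2 = max K1 1 := ⟨_, rfl⟩
  have hK21 : 1 ≤ K2 := by rw [hK2]; exact le_max_right _ _
  have hK20 : 0 < K2 := by linarith
  have hK12 : K1 ≤ K2 := by rw [hK2]; exact le_max_left _ _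
  obtain ⟨D, hD⟩ : ∃ D : ℝ, D = Real.log (c * K2) + |Cc c (c + 1)| / ε₀ + |Cc c (c + 1)| +
      (c + 1) * Real.log 5 +
      (c * Real.log (2 * (2 * C + 2) + 1) + c * Real.log (2 * (2 * C + 2) + 1)) +
      Real.log (K + 1) + c * Real.log (9 * C) := ⟨_, rfl⟩
  obtain ⟨X2, hX2⟩ := ex_lin (a := g / 32) (b := D) (by positivity)
  refine ⟨max X1 (max X2 1), fun H ρ β S Wd Z F i0 X k0 k1 hX h01 h1X hkk hH => ?_⟩
  have l1 : X1 ≤ X := (le_max_left _ _).trans hX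
  have l2 : X2 ≤ X := ((le_max_left _ _).trans (le_max_right _ _)).trans hX
  have l3 : (1 : ℝ) ≤ X := by
    exact_mod_cast ((le_max_right _ _).trans (le_max_right _ _)).trans hX
  have hX0 : (0 : ℝ) < X := by linarith
  have hDX := hX2 X l2
  obtain ⟨A0, hA, hA2, hA3, hbody⟩ := hB H X l1
    (okd_mono hH.ok (mul_le_mul_of_nonneg_right hi1 hX0.le))
  by_contra hcon
  push Not at hcon
  have hfb := hH.fb
  have hq0 := (tup_isLaw hfb.law H.line (n + 2)).nonneg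
  have hcK : 1 ≤ (c : ℝ) * K2 := one_le_mul_of_one_le_of_one_le hc1 hK21
  have key := fb_ineq (N := n + 2) hfb hC hh1 h01 h1X hϖ0 (A0 := A0)
    (fun t => (hA t).1) (fun t => (hA t).2.2) hbody hcK hε₀ (by
      refine hcon.le.trans ?_
      rw [Pool.K2S.Pe_eq, Pool.K2S.Pe_eq]
      refine Finset.sum_le_sum fun w _ => ?_
      by_cases hw : ∃ u, (1 / 2 : ℝ) ^ k0 < |dd n H.tau H.E u (fun j => H.th (w j.succ)) i0|
      · obtain ⟨u, hu⟩ := hw
        have h1 : Lg i0 ((1 / 2) ^ k0 / (c * K2)) (A0 fun j => H.th (w j.succ)) :=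
          ⟨bg i0 (A0 fun j => H.th (w j.succ)), fun i hi =>
            col_zero rfl hH.E0 (hA _).1 (hA3 fun j => w j.succ) i hi,
            bg_long (hA _).1 hK20 (fun b => (hA2 (fun j => w j.succ) u b).trans hK12) hu⟩
        rw [if_pos ⟨u, hu⟩, if_pos h1]
      · rw [if_neg hw]
        split_ifs
        · exact hq0 w
        · exact le_rfl) hK0
  -- the estimates
  have e2 : (η * X + |Cc c (c + 1)|) / ε₀ = g / 32 * X + |Cc c (c + 1)| / ε₀ := by
    rw [add_div, hη]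
    congr 1
    field_simp
  have e3 : ((n + 2 : ℕ) + 1) * (io * X) / ε₀ ≤ g / 32 * X := by
    rw [div_le_iff₀ hε₀]
    have h1 : ((n + 2 : ℕ) + 1 : ℝ) ≤ N := by
      rw [hN]
      push_cast
      linarith
    have h2 : io * N ≤ g * ε₀ / 32 := by
      have := mul_le_mul_of_nonneg_right hi2 (by linarith : (0 : ℝ) ≤ N)
      refine this.trans (le_of_eq ?_)
      field_simp
    calc ((n + 2 : ℕ) + 1) * (io * X) ≤ N * (io * X) :=
          mul_le_mul_of_nonneg_right h1 (by positivity)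
      _ = io * N * X := by ring
      _ ≤ g * ε₀ / 32 * X := mul_le_mul_of_nonneg_right h2 hX0.le
      _ = g / 32 * X * ε₀ := by ring
  have e4 : c * Real.log (4 * (2 * C * 2 ^ X) + 1) ≤ c * (X + Real.log (9 * C)) := by
    refine mul_le_mul_of_nonneg_left ?_ hcR.le
    have h1 : (1 : ℝ) ≤ 2 ^ X := one_le_pow₀ (by norm_num)
    have h2 := log_pow_le (A := 9 * C) (by linarith) X (y := 4 * (2 * C * 2 ^ X) + 1)
      (by positivity) (by nlinarith)
    have h3 : X * Real.log 2 ≤ X := mul_le_of_le_one_right hX0.le hL1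
    linarith
  have l9 : 0 ≤ Real.log (9 * C) := Real.log_nonneg (by linarith)
  have e5 : (1 / ε₀ / K + 1 / ε₀ * ϖ) ≤ g / (32 * c) := by
    have h1 : 1 / ε₀ / K ≤ g / (64 * c) := by
      rw [div_div, div_le_div_iff₀ (by positivity) (by positivity)]
      rw [div_lt_iff₀ (by positivity)] at hK
      linarith
    have h2 : 1 / ε₀ * ϖ = g / (64 * c) := by
      rw [hϖ]
      field_simp
    have h3 : g / (64 * c) + g / (64 * c) = g / (32 * c) := by
      field_simp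
      ring
    linarith
  have e5' : 0 ≤ 1 / ε₀ / K + 1 / ε₀ * ϖ := by positivity
  have g32 : g / 32 ≤ 1 := by
    rw [hg]
    have h1 : h * κ' ≤ 1 := mul_le_one₀ hh1 hκ'0.le hκ'1
    have h2 : h * κ' * Real.log 2 ≤ 1 * 1 := mul_le_mul h1 hL1 hL2.le zero_le_one
    linarith
  have e6 : (1 / ε₀ / K + 1 / ε₀ * ϖ) * (c * Real.log (4 * (2 * C * 2 ^ X) + 1)) ≤
      g / 32 * X + c * Real.log (9 * C) := by
    have h0 : 0 ≤ (c : ℝ) * (X + Real.log (9 * C)) := by positivity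
    calc (1 / ε₀ / K + 1 / ε₀ * ϖ) * (c * Real.log (4 * (2 * C * 2 ^ X) + 1)) ≤
          (1 / ε₀ / K + 1 / ε₀ * ϖ) * (c * (X + Real.log (9 * C))) :=
          mul_le_mul_of_nonneg_left e4 e5'
      _ ≤ g / (32 * c) * (c * (X + Real.log (9 * C))) := mul_le_mul_of_nonneg_right e5 h0
      _ = g / 32 * X + g / 32 * Real.log (9 * C) := by
          field_simp
      _ ≤ g / 32 * X + 1 * (c * Real.log (9 * C)) := by
          have : g / 32 * Real.log (9 * C) ≤ 1 * (c * Real.log (9 * C)) := by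
            refine mul_le_mul g32 ?_ l9 zero_le_one
            nlinarith
          linarith
      _ = g / 32 * X + c * Real.log (9 * C) := by ring
  have e7 : io * X ≤ g / 32 * X := mul_le_mul_of_nonneg_right hi3 hX0.le
  have m2 := le_abs_self (Cc c (c + 1))
  have e8 : g * X ≤ h * ((k1 : ℝ) - k0) * Real.log 2 := by
    have h1 : κ' * X ≤ (k1 : ℝ) - k0 := (mul_le_mul_of_nonneg_right hκ'2 hX0.le).trans hkk
    have h2 := mul_le_mul_of_nonneg_left h1 (mul_pos hh hL2).le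
    rw [hg]
    linarith
  have hgX0 : 0 < g * X := by positivity
  rw [e2] at key
  rw [hD] at hDX
  linarith only [key, e3, e6, e7, m2, e8, hgX0, hDX]

end Pool.FS21
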