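import Pool.Agent.H21.FS.Qp

/-!
# LEMMA FS for one block of digits, the conclusion

`qh_poly`: a picture of degree `n` in which only the coordinate `i0` has slopes; the digits
`(k0, k1]` of the height of `i0` are not full given the digits before, the heights of the other
coordinates, the slow digits and the record (`FbH`). Then the slopes of `i0` are polynomials of degree
`n` in the time, to `k0 - σ X` digits, with coefficients which are functions of the line, and these are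
functions of the context up to few bits. `row_fb`: the hypotheses when `Z` is the height itself.
-/

set_option autoImplicit false

namespace Pool.FS21

open Finset Real Matrix
open Pool.Agent.H49.Ent Pool.Agent.H32.Dense Pool.STK Pool.POT Pool.FAD Pool.SLO Pool.TQ
open Pool.BD64 (QHd)
open Pool.TT37 (dd con_d)
open Pool.LPX (tp)
open Pool.BFL (Pb)
open Pool.K2S (Pe)

variable {c k n : ℕ}

/-- The hypotheses, without slow digits: the row of the height itself. -/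
theorem row_fb {H : QHd c k n} {i0 : Fin c} {X k0 k1 : ℕ} {C d h ϖ : ℝ} (hC : 1 ≤ C)
    (ok : H.OkNS X C d) (E0 : ∀ ω u i, i ≠ i0 → H.E (H.th ω) u i = 0)
    (row : ∀ G : H.Ω → Prop, ϖ ≤ Pe H.p G → 0 < Pe H.p G →
      CH (cond H.p G True) (fun ω => tp X k1 (H.hgt ω i0)) (fun ω => (tp X k0 (H.hgt ω i0),
        ((fun i : {i // i ≠ i0} => H.hgt ω i), (H.th ω, H.b ω)))) ≤
        (1 - h) * ((k1 : ℝ) - k0) * Real.log 2 + d) :
    FbH H (fun ω => (H.th ω, H.b ω)) (fun _ => ()) H.hgt (fun _ _ _ _ => 0) i0 X k0 k1 C d h ϖ := by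
  have h0 := ok.law.nonneg
  have hd : 0 ≤ d := (MI_nonneg h0 _ _ _).trans (okd_mi ok)
  refine ⟨ok, E0, ok.hgt_b, fun ω _ i => ?_, ?_, fun ω ω' _ _ e => (Prod.ext_iff.mp e).2, ?_⟩
  · rw [sub_zero, sub_self, abs_zero]
    linarith
  · refine le_trans (le_of_eq ?_) hd
    rw [MI_symm h0]
    exact MI_zero h0 fun _ _ _ _ _ => rfl
  · intro G hG hG0
    have hr0 := (cond_law h0 hG0).nonneg
    refine le_trans (le_of_eq ?_) (row G hG hG0)
    refine CH_congr hr0 ?_ ?_ ?_ ?_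
    · intro ω ω' _ _ e
      have e1 := congrFun (Prod.ext_iff.mp e).1 i0
      simp only [bl, if_true] at e1
      exact e1
    · intro ω ω' _ _ e
      simp only [Prod.mk.injEq] at e
      funext i
      unfold bl
      beta_reduce
      split_ifs with hi
      · exact e.1
      · exact congrFun e.2.2.1 ⟨i, hi⟩
    · intro ω ω' _ _ e
      simp only [Prod.mk.injEq] at e ⊢
      have e1 := congrFun e.1 i0
      simp only [bl, if_true] at e1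
      refine ⟨e1, ?_, e.2.2⟩
      funext i
      have e2 := congrFun e.1 i.1
      unfold bl at e2
      rwa [if_neg i.2, if_neg i.2] at e2
    · intro ω ω' _ _ e
      simp only [Prod.mk.injEq] at e ⊢
      refine ⟨?_, trivial, e.2.2⟩
      funext i
      unfold bl
      beta_reduce
      split_ifs with hi
      · exact e.1
      · exact congrFun e.2.1 ⟨i, hi⟩

/-- **LEMMA FS for one block.** -/
theorem qh_poly (c k n : ℕ) (hn : 1 ≤ n) {h κ σ ε₀ : ℝ} (hh : 0 < h) (hh1 : h ≤ 1) (hκ : 0 < κ)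
    (hσ : 0 < σ) (hε₀ : 0 < ε₀) :
    ∃ io ϖ : ℝ, 0 < io ∧ 0 < ϖ ∧ ∀ C : ℝ, 1 ≤ C → ∃ X0 : ℕ,
    ∀ (H : QHd c k n) (ρ β : Type) (S : H.Ω → ρ) (Wd : H.Ω → β) (Z : H.Ω → Fin c → ℤ)
      (F : β → H.Tt → H.B → Fin c → ℝ) (i0 : Fin c) (X k0 k1 : ℕ), X0 ≤ X → k0 ≤ k1 → k1 ≤ X →
      κ * X ≤ (k1 : ℝ) - k0 → FbH H S Wd Z F i0 X k0 k1 C (io * X) h ϖ →
      ∃ ep : (Fin c → ℤ) × (H.Vt × H.B) → Fin (n + 1) → Fin k → ℝ,
        (∀ z a u, |ep z a u| ≤ (2 : ℝ) ^ (σ * X)) ∧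
        Pb H.p (fun ω => ¬ ∀ u, |H.E (H.th ω) u i0 -
          ∑ a, ep (H.line ω) a u * ((H.tau (H.th ω) : ℝ) / 2 ^ X) ^ (a : ℕ)| ≤
            (2 : ℝ) ^ (σ * X - k0)) ≤ ε₀ ∧
        ∀ Y : ℕ, (Y : ℝ) ≤ k0 - σ * X →
          CH H.p (fun ω (v : Fin (n + 1) × Fin k) => ⌊(2 : ℝ) ^ Y * ep (H.line ω) v.1 v.2⌋)
            H.b ≤ ε₀ * X := by
  classical
  have hL2 : 0 < Real.log 2 := Real.log_pos (by norm_num)
  have hL1 : Real.log 2 ≤ 1 := by
    have := Real.log_two_lt_d9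
    linarith
  have hn0 : (0 : ℝ) ≤ n := Nat.cast_nonneg n
  have hk0 : (0 : ℝ) ≤ k := Nat.cast_nonneg k
  obtain ⟨W, hW⟩ : ∃ W : ℝ, W = ((n : ℝ) + 2) ^ 2 * (k + 1) * 8 := ⟨_, rfl⟩
  have hW8 : 8 ≤ W := by
    rw [hW]
    have h1 : (1 : ℝ) ≤ ((n : ℝ) + 2) ^ 2 := one_le_pow₀ (by linarith)
    have h2 : (1 : ℝ) ≤ (k : ℝ) + 1 := by linarith
    nlinarith [mul_le_mul h1 h2 zero_le_one (by positivity)]
  obtain ⟨δ, hδ⟩ : ∃ δ : ℝ, δ = min ε₀ 1 / (W * (W * (3 + σ))) := ⟨_, rfl⟩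
  have hm0 : 0 < min ε₀ 1 := lt_min hε₀ one_pos
  have hδ0 : 0 < δ := by
    rw [hδ]
    positivity
  obtain ⟨s', hs'⟩ : ∃ s' : ℝ, s' = min (σ / 4) 1 / (n + 3) := ⟨_, rfl⟩
  have hs'm : 0 < min (σ / 4) 1 := lt_min (by positivity) one_pos
  have hs'0 : 0 < s' := by
    rw [hs']
    positivity
  have hs'n : s' * (n + 3) = min (σ / 4) 1 := by
    rw [hs']
    field_simp
  have hs'1 : s' * (n + 3) ≤ 1 := hs'n.le.trans (min_le_right _ _)
  have hs'3 : s' * (n + 3) ≤ σ / 4 := hs'n.le.trans (min_le_left _ _)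
  have hs'2 : s' * (n + 3) ≤ σ / 2 := by linarith
  have hs'4 : s' ≤ 1 := by nlinarith
  obtain ⟨io1, ϖ, hio1, hϖ, H1⟩ := fb_dd c k n hn hh hh1 hκ hδ0
  obtain ⟨io, hio⟩ : ∃ io : ℝ, io = min io1 (min (δ * s' * Real.log 2 / 64) (ε₀ / (2 * (n + 1)))) :=
    ⟨_, rfl⟩
  have hio0 : 0 < io := by
    rw [hio]
    exact lt_min hio1 (lt_min (by positivity) (by positivity))
  have hi1 : io ≤ io1 := by rw [hio]; exact min_le_left _ _
  have hi2 : io ≤ δ * s' * Real.log 2 / 64 := by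
    rw [hio]
    exact (min_le_right _ _).trans (min_le_left _ _)
  have hi3 : io ≤ ε₀ / (2 * (n + 1)) := by
    rw [hio]
    exact (min_le_right _ _).trans (min_le_right _ _)
  refine ⟨io, ϖ, hio0, hϖ, fun C hC => ?_⟩
  obtain ⟨X1, H1⟩ := H1 C hC
  obtain ⟨X2, hX2⟩ := ex_lin (a := s') (b := 4) hs'0
  obtain ⟨X3, hX3⟩ := ex_pow (a := σ / 2) (b := (n + 1) * (C * 2 ^ (n + 1))) (by positivity)
  obtain ⟨X4, hX4⟩ := ex_lin (a := δ * s' * Real.log 2 / 32) (b := Real.log 4) (by positivity)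
  obtain ⟨X5, hX5⟩ := ex_lin (a := ε₀ / 4) (b := ((n : ℝ) + 1) * k * (Real.log 2 +
    Real.log (2 * ((n + 1) * 2 ^ (n + 1) + 1) + 1)) + 1) (by positivity)
  refine ⟨max (max X1 (max X2 X3)) (max (max X4 X5) 1), 
    fun H ρ β S Wd Z F i0 X k0 k1 hX h01 h1X hkk hH => ?_⟩
  obtain ⟨b1, b2⟩ := max_le_iff.1 hX
  obtain ⟨b1, b3⟩ := max_le_iff.1 b1
  obtain ⟨b3, b4⟩ := max_le_iff.1 b3
  obtain ⟨b5, b6⟩ := max_le_iff.1 b2
  obtain ⟨b7, b8⟩ := max_le_iff.1 b5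
  have hX1 : (1 : ℝ) ≤ X := by exact_mod_cast b6
  have hX0 : (0 : ℝ) < X := by linarith
  replace hX2 := hX2 X b3
  replace hX3 := hX3 X b4
  replace hX4 := hX4 X b7
  replace hX5 := hX5 X b8
  have hl := hH.ok.law
  have h2X : (0 : ℝ) < 2 ^ X := by positivity
  obtain ⟨s, hs⟩ : ∃ s : ℝ, s = (2 : ℝ) ^ (-(s' * X)) := ⟨_, rfl⟩
  have hs0 : 0 < s := by rw [hs]; positivity
  have hs1 : s ≤ 1 := by
    rw [hs]
    exact Real.rpow_le_one_of_one_le_of_nonpos (by norm_num) (by nlinarith)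
  -- the vectors
  have r1 := H1 H ρ β S Wd Z F i0 X k0 k1 b1 h01 h1X hkk
    (hH.mono (mul_le_mul_of_nonneg_right hi1 hX0.le))
  obtain ⟨E', hE'⟩ : ∃ E' : H.Tt → Fin k → Fin 1 → ℝ, E' = fun t u _ => H.E t u i0 := ⟨_, rfl⟩
  obtain ⟨e, he⟩ : ∃ e : ℝ, e = (1 / 2 : ℝ) ^ k0 := ⟨_, rfl⟩
  have he0 : 0 < e := by rw [he]; positivity
  have r2 : Pb (tup H.p H.line (n + 2)) (fun w => ∃ u i,
      e < |dd n H.tau E' u (fun j => H.th (w j.succ)) i|) ≤ δ := by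
    refine le_trans (le_of_eq ?_) r1
    rw [Pool.K2S.Pe_eq]
    unfold Pb
    refine Finset.sum_congr rfl fun w _ => ?_
    have this : (∃ u i, e < |dd n H.tau E' u (fun j => H.th (w j.succ)) i|) ↔
        ∃ u, (1 / 2 : ℝ) ^ k0 < |dd n H.tau H.E u (fun j => H.th (w j.succ)) i0| := by
      rw [hE', he]
      constructor
      · rintro ⟨u, i, hu⟩
        exact ⟨u, hu⟩
      · rintro ⟨u, hu⟩
        exact ⟨u, 0, hu⟩
    by_cases hw : ∃ u, (1 / 2 : ℝ) ^ k0 <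
        |dd n H.tau H.E u (fun j => H.th (w j.succ)) i0|
    · rw [if_pos (this.2 hw), if_pos hw]
    · rw [if_neg fun h => hw (this.1 h), if_neg hw]
  -- the times
  have r3 : Pb (tup H.p H.line 1) (fun w =>
      |((H.tau (H.th (w 0)) - H.tau (H.th (w 1)) : ℤ) : ℝ)| ≤ s * 2 ^ X) ≤ δ := by
    have h1 := far_tm hl H.line (fun ω => H.tau (H.th ω)) hH.ok.tau_r (okd_tm hH.ok) hs'4 hX2
    rw [← hs] at h1
    have h2 : 0 < s' * X / 2 * Real.log 2 := by positivity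
    rw [← le_div_iff₀ h2] at h1
    refine h1.trans ?_
    rw [div_le_iff₀ h2]
    have h3 := mul_le_mul_of_nonneg_right hi2 hX0.le
    linarith
  -- the polynomials
  obtain ⟨ep, hb, hP⟩ := con_d hl H.line H.th H.tau n E' (C := C) (s := s) (e := e) hs0 hs1
    hH.ok.tau_r (fun ω u i => by rw [hE']; exact hH.ok.E_b ω u i0) r2 r3
  have hpw : (2 / s) ^ (n + 1) ≤ 2 ^ (n + 1) * (2 : ℝ) ^ (σ / 2 * X) := by
    rw [div_pow, div_eq_mul_inv]
    refine mul_le_mul_of_nonneg_left ?_ (by positivity)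
    rw [hs, ← Real.rpow_natCast ((2 : ℝ) ^ (-(s' * X))), ← Real.rpow_mul (by norm_num),
      ← Real.rpow_neg (by norm_num)]
    refine Real.rpow_le_rpow_of_exponent_le (by norm_num) ?_
    push_cast
    nlinarith [mul_nonneg hs'0.le hX0.le]
  have hCb : (n + 1) * (C * (2 / s) ^ (n + 1)) ≤ (2 : ℝ) ^ (σ * X) := by
    have e1 : (2 : ℝ) ^ (σ * X) = (2 : ℝ) ^ (σ / 2 * X) * (2 : ℝ) ^ (σ / 2 * X) := by
      rw [← Real.rpow_add (by norm_num)]
      congr 1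
      ring
    rw [e1]
    calc (n + 1) * (C * (2 / s) ^ (n + 1)) ≤
          (n + 1) * (C * (2 ^ (n + 1) * (2 : ℝ) ^ (σ / 2 * X))) := by gcongr
      _ = (n + 1) * (C * 2 ^ (n + 1)) * (2 : ℝ) ^ (σ / 2 * X) := by ring
      _ ≤ _ := mul_le_mul_of_nonneg_right hX3 (by positivity)
  have hmass : (n + 2) * δ + (n + 2) ^ 2 * δ ≤ W * δ := by
    have h1 : ((n : ℝ) + 2) + (n + 2) ^ 2 ≤ W := by
      rw [hW]
      nlinarith [mul_nonneg (sq_nonneg ((n : ℝ) + 2)) hk0]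
    have := mul_le_mul_of_nonneg_right h1 hδ0.le
    linarith
  have hWδ : W * δ * (W * (3 + σ)) = min ε₀ 1 := by
    rw [hδ]
    field_simp
  have hWδ1 : W * δ ≤ ε₀ := by
    have h1 : 1 ≤ W * (3 + σ) := by nlinarith
    have h2 : 0 ≤ W * δ := by positivity
    calc W * δ = W * δ * 1 := (mul_one _).symm
      _ ≤ W * δ * (W * (3 + σ)) := mul_le_mul_of_nonneg_left h1 h2
      _ ≤ ε₀ := hWδ.le.trans (min_le_left _ _)
  have hk2 : (1 / 2 : ℝ) ^ k0 = (2 : ℝ) ^ (-(k0 : ℝ)) := by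
    rw [Real.rpow_neg (by norm_num), Real.rpow_natCast, one_div, inv_pow]
  have herr : e / s ^ (n + 2) ≤ (2 : ℝ) ^ (σ / 2 * X - k0) := by
    rw [he, hk2, hs, ← Real.rpow_natCast ((2 : ℝ) ^ (-(s' * X))), ← Real.rpow_mul (by norm_num),
      ← Real.rpow_sub (by norm_num)]
    refine Real.rpow_le_rpow_of_exponent_le (by norm_num) ?_
    push_cast
    have h1 : s' * (n + 2) ≤ σ / 4 := by nlinarith
    have h2 := mul_le_mul_of_nonneg_right h1 hX0.le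
    have h3 : 0 ≤ σ * X := by positivity
    linarith
  have hP' : Pb H.p (fun ω => ¬ ∀ (i : Fin 1) (u : Fin k), |E' (H.th ω) u i -
      ∑ a, ep (H.line ω) a u 0 * ((H.tau (H.th ω) : ℝ) / 2 ^ X) ^ (a : ℕ)| ≤
        (2 : ℝ) ^ (σ / 2 * X - k0)) ≤ W * δ := by
    have h1 : Pb H.p (fun ω => ¬ ∀ (i : Fin 1) (u : Fin k), |E' (H.th ω) u i -
        ∑ a, ep (H.line ω) a u 0 * ((H.tau (H.th ω) : ℝ) / 2 ^ X) ^ (a : ℕ)| ≤
        (2 : ℝ) ^ (σ / 2 * X - k0)) ≤ Pb H.p (fun ω => ¬ ∀ u i, |E' (H.th ω) u i -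
        ∑ a, ep (H.line ω) a u i * ((H.tau (H.th ω) : ℝ) / 2 ^ X) ^ (a : ℕ)| ≤
          e / s ^ (n + 2)) := by
      refine Pool.TT37.pb_mono hl.nonneg fun ω _ h1 h2 => h1 fun i u => ?_
      have hi : i = 0 := Subsingleton.elim _ _
      rw [hi]
      exact (h2 u 0).trans herr
    exact h1.trans (hP.trans hmass)
  refine ⟨fun z a u => ep z a u 0, fun z a u => (hb z a u 0).trans hCb, ?_, ?_⟩
  · have h1 : Pb H.p (fun ω => ¬ ∀ u, |H.E (H.th ω) u i0 -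
        ∑ a, ep (H.line ω) a u 0 * ((H.tau (H.th ω) : ℝ) / 2 ^ X) ^ (a : ℕ)| ≤
            (2 : ℝ) ^ (σ * X - k0)) ≤
        Pb H.p (fun ω => ¬ ∀ (i : Fin 1) (u : Fin k), |E' (H.th ω) u i -
        ∑ a, ep (H.line ω) a u 0 * ((H.tau (H.th ω) : ℝ) / 2 ^ X) ^ (a : ℕ)| ≤
        (2 : ℝ) ^ (σ / 2 * X - k0)) := by
      refine Pool.TT37.pb_mono hl.nonneg fun ω _ h1 h2 => h1 fun u => ?_
      have := h2 0 u
      rw [hE'] at this
      refine this.trans (Real.rpow_le_rpow_of_exponent_le (by norm_num) ?_)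
      have h5 : 0 ≤ σ * X := by positivity
      linarith
    exact h1.trans (hP'.trans hWδ1)
  · intro Y hY
    have hkX : (k0 : ℝ) ≤ X := by exact_mod_cast h01.trans h1X
    have hY' : (Y : ℝ) ≤ (1 - σ) * X := by linarith
    have hVb := log_sz (x₀ := 1) le_rfl hσ hY'
    have hDY : (2 : ℝ) ^ Y * ((n + 1) * ((2 : ℝ) ^ (σ / 2 * X - k0) * (2 / s) ^ (n + 1))) + 1 ≤
        (n + 1) * 2 ^ (n + 1) + 1 := by
      have h1 : (2 : ℝ) ^ Y * ((n + 1) * ((2 : ℝ) ^ (σ / 2 * X - k0) * (2 / s) ^ (n + 1))) ≤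
          (2 : ℝ) ^ Y * ((n + 1) * ((2 : ℝ) ^ (σ / 2 * X - k0) *
            (2 ^ (n + 1) * (2 : ℝ) ^ (σ / 2 * X)))) := by gcongr
      have h2 : (2 : ℝ) ^ Y * ((2 : ℝ) ^ (σ / 2 * X - k0) * (2 : ℝ) ^ (σ / 2 * X)) ≤ 1 := by
        rw [← Real.rpow_natCast, ← Real.rpow_add (by norm_num), ← Real.rpow_add (by norm_num)]
        refine Real.rpow_le_one_of_one_le_of_nonpos (by norm_num) ?_
        have h5 : 0 ≤ σ * X := by positivity
        linarith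
      have h3 : (2 : ℝ) ^ Y * ((n + 1) * ((2 : ℝ) ^ (σ / 2 * X - k0) *
            (2 ^ (n + 1) * (2 : ℝ) ^ (σ / 2 * X)))) = (n + 1) * 2 ^ (n + 1) *
            ((2 : ℝ) ^ Y * ((2 : ℝ) ^ (σ / 2 * X - k0) * (2 : ℝ) ^ (σ / 2 * X))) := by ring
      have h4 : (n + 1 : ℝ) * 2 ^ (n + 1) *
            ((2 : ℝ) ^ Y * ((2 : ℝ) ^ (σ / 2 * X - k0) * (2 : ℝ) ^ (σ / 2 * X))) ≤
            (n + 1) * 2 ^ (n + 1) * 1 := mul_le_mul_of_nonneg_left h2 (by positivity)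
      linarith
    have hc := Pool.TC.coef_few hl H.line H.th H.b (line_det H) H.tau (c := 1) (k := k) (X := X) n
      E' (C := (2 : ℝ) ^ (σ * X)) (s := s) (e := (2 : ℝ) ^ (σ / 2 * X - k0)) (δ₁ := W * δ) (δ₂ := δ)
      (io := io * X) (D := (n + 1) * 2 ^ (n + 1) + 1) (by positivity) hs0 hs1 (by positivity)
      hH.ok.tau_r (fun z a _ u => ep z a u 0) (fun z a _ u => (hb z a u 0).trans hCb) hP' r3
      (okd_mi hH.ok) Y hDY
    have hcc : CH H.p (fun ω (v : Fin (n + 1) × Fin k) =>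
        ⌊(2 : ℝ) ^ Y * ep (H.line ω) v.1 v.2 0⌋) H.b ≤
        CH H.p (fun ω (v : Fin (n + 1) × (Fin 1 × Fin k)) =>
          ⌊(2 : ℝ) ^ Y * ep (H.line ω) v.1 v.2.2 0⌋) H.b := by
      refine CH_mono_left hl.nonneg fun ω ω' _ _ e => ?_
      simp only [Prod.mk.injEq] at e
      funext v
      exact congrFun e.1 (v.1, (0, v.2))
    refine hcc.trans (hc.trans ?_)
    refine le_trans (le_of_eq ?_) (num_fin (a := (n : ℝ) + 1) (κ := (k : ℝ)) (by linarith) hk0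
      (hW.symm ▸ hWa hn0 hk0) (hW.symm ▸ hWk hn0 hk0) hσ hε₀ hδ hi3 hX0.le hX5 hVb)
    push_cast
    ring

end Pool.FS21
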