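import Pool.Agent.H21.FS.Law
import Pool.Agent.H16.LP.Disp

/-!
# FS: one block of digits

`bl X k i0 n`: the coordinate `i0` of `n` is cut to its first `k` of `X` digits. `blk_full`: if `n` is
full in a body which contains a long segment of the axis `i0`, then the digits of the coordinate `i0`
behind the length of the segment are full. `fb_ineq`: the inequality of FS for one block.
-/

set_option autoImplicit false

namespace Pool.FS21

open Finset Real Matrix
open Pool.Agent.H49.Ent Pool.Agent.H32.Dense Pool.STK Pool.POT Pool.FAD Pool.SLO Pool.TQ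
open Pool.LPX (tp tp_near of_tp_eq tp_self CH_few_tp)
open Pool.K2S (Pe)

variable {c N : ℕ}

/-- The coordinate `i0` cut to `k` of `X` digits. -/
def bl (X k : ℕ) (i0 : Fin c) (n : Fin c → ℤ) (i : Fin c) : ℤ := if i = i0 then tp X k (n i0) else n i

theorem bl_self (X : ℕ) (i0 : Fin c) (n : Fin c → ℤ) : bl X X i0 n = n := by
  funext i
  unfold bl
  split_ifs with h
  · rw [tp_self, h]
  · rfl

/-- The box with a segment of length `v` of the axis `i0`, the other sides are `2 ^ (-X)`. -/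
noncomputable def Vb (X : ℕ) (i0 : Fin c) (v : ℝ) : Matrix (Fin c) (Fin c) ℝ :=
  Vm X i0 (Pi.single i0 v)

theorem Vb_det (X : ℕ) (i0 : Fin c) {v : ℝ} (hv : v ≠ 0) : (Vb X i0 v).det ≠ 0 := by
  unfold Vb
  rw [Vm_det, Pi.single_eq_same]
  exact mul_ne_zero hv (by positivity)

/-- The body contains a long segment of the axis. -/
def Lg (i0 : Fin c) (v : ℝ) (A : Matrix (Fin c) (Fin c) ℝ) : Prop :=
  ∃ b, (∀ i, i ≠ i0 → A i b = 0) ∧ v ≤ |A i0 b|

theorem Vb_inc {X : ℕ} {A : Matrix (Fin c) (Fin c) ℝ} (hA : A.det ≠ 0)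
    (hinv : ∀ i j, |A⁻¹ i j| ≤ 2 ^ X) {i0 : Fin c} {v : ℝ} (hv : 0 < v) (h : Lg i0 v A) :
    Inc c (Vb X i0 v) A := by
  obtain ⟨b, h0, hb⟩ := h
  have hX : (0 : ℝ) < 2 ^ X := by positivity
  intro i
  refine row_one (fun i j => ?_) i
  by_cases hj : j = i0
  · subst hj
    have e1 : (A⁻¹ * Vb X j v) i j = A⁻¹ i j * v := by
      rw [Matrix.mul_apply, Finset.sum_eq_single j]
      · unfold Vb Vm
        rw [Matrix.updateCol_apply, if_pos rfl, Pi.single_eq_same]
      · intro k _ hk
        unfold Vb Vm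
        rw [Matrix.updateCol_apply, if_pos rfl, Pi.single_eq_of_ne hk, mul_zero]
      · intro h
        exact absurd (Finset.mem_univ _) h
    have e2 : A⁻¹ i j * A j b = (1 : Matrix (Fin c) (Fin c) ℝ) i b := by
      rw [← Matrix.nonsing_inv_mul _ (isUnit_iff_ne_zero.2 hA), Matrix.mul_apply,
        Finset.sum_eq_single j]
      · intro k _ hk
        rw [h0 k hk, mul_zero]
      · intro h
        exact absurd (Finset.mem_univ _) h
    have e3 : |A⁻¹ i j * A j b| ≤ 1 := by
      rw [e2, Matrix.one_apply]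
      split_ifs
      · rw [abs_one]
      · rw [abs_zero]
        exact zero_le_one
    rw [e1]
    rw [abs_mul] at e3 ⊢
    rw [abs_of_pos hv]
    exact (mul_le_mul_of_nonneg_left hb (abs_nonneg _)).trans e3
  · have e1 : (A⁻¹ * Vb X i0 v) i j = A⁻¹ i j * ((2 : ℝ) ^ X)⁻¹ := by
      rw [Matrix.mul_apply]
      unfold Vb Vm Tx
      simp only [Matrix.updateCol_apply, if_neg hj, Matrix.diagonal_apply]
      rw [Finset.sum_eq_single j]
      · simp
      · intro k _ hk
        simp [hk]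
      · intro h
        exact absurd (Finset.mem_univ _) h
    rw [e1, abs_mul, abs_of_pos (inv_pos.2 hX), ← div_eq_mul_inv, div_le_one hX]
    exact hinv i j

/-- The cells of the box. -/
theorem Vb_cl (X : ℕ) (i0 : Fin c) {v : ℝ} (hv : 0 < v) (n : Fin c → ℤ) (i : Fin c) :
    cl (Vb X i0 v) (xv X n) i = if i = i0 then ⌊(n i0 : ℝ) / 2 ^ X / v⌋ else n i := by
  have ha : (Pi.single i0 v : Fin c → ℝ) i0 ≠ 0 := by
    rw [Pi.single_eq_same]
    exact hv.ne'
  have hX : ((2 : ℝ) ^ X) ≠ 0 := by positivity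
  unfold cl Vb
  rw [Vm_mul X i0 _ ha]
  beta_reduce
  split_ifs with hi
  · rw [Pi.single_eq_same]
    rfl
  · rw [Pi.single_eq_of_ne hi, zero_div, zero_mul, sub_zero]
    have : (2 : ℝ) ^ X * xv X n i = n i := by
      unfold xv
      field_simp
    rw [this, Int.floor_intCast]

variable {Ω ζ : Type} [Fintype Ω] {p : Ω → ℝ}

/-- **The digits behind the length of the segment are full.** -/
theorem blk_full (hp : IsLaw p) {X k0 k1 : ℕ} (h1X : k1 ≤ X)
    {A : Ω → Matrix (Fin c) (Fin c) ℝ} (n : Ω → Fin c → ℤ) (Z : Ω → ζ) (hdA : Det p Z A)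
    (hA : ∀ ω, (A ω).det ≠ 0) (hinv : ∀ ω i j, |(A ω)⁻¹ i j| ≤ 2 ^ X) (i0 : Fin c) {K : ℝ}
    (hK : 1 ≤ K) (h01 : k0 ≤ k1) (hbox : ∀ ω, 0 < p ω → Lg i0 ((1 / 2) ^ k0 / K) (A ω)) :
    ((k1 : ℝ) - k0) * Real.log 2 - DF p (fun _ => Tx c X) A (fun ω => xv X (n ω)) Z -
      Cc c (c + 1) - Real.log K - (c + 1) * Real.log 5 ≤
      CH p (fun ω => bl X k1 i0 (n ω)) (fun ω => (bl X k0 i0 (n ω), Z ω)) := by
  classical
  have hp0 := hp.nonneg
  have h2X : (0 : ℝ) < 2 ^ X := by positivity
  obtain ⟨v, hv⟩ : ∃ v : ℝ, v = (1 / 2) ^ k0 / K := ⟨_, rfl⟩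
  have hv0 : 0 < v := by
    rw [hv]
    positivity
  rw [← hv] at hbox
  obtain ⟨V, hV⟩ : ∃ V : Ω → Matrix (Fin c) (Fin c) ℝ, V = fun ω =>
    if Lg i0 v (A ω) then Vb X i0 v else Tx c X := ⟨_, rfl⟩
  have hVs : ∀ ω, 0 < p ω → V ω = Vb X i0 v := fun ω hω => by
    rw [hV]
    exact if_pos (hbox ω hω)
  have hVd : ∀ ω, (V ω).det ≠ 0 := by
    intro ω
    rw [hV]
    beta_reduce
    split_ifs
    · exact Vb_det X i0 hv0.ne'
    · exact Tx_det c X
  have hdV : Det p Z V := by
    intro ω ω' a b e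
    have := hdA ω ω' a b e
    rw [hV]
    beta_reduce
    rw [this]
  have h1 := DF_mono hp0 hp.sum_one (T := fun _ => Tx c X) (W := V) (S := A)
    (fun ω => xv X (n ω)) Z hdV hdA hVd hA (a := (c : ℝ) + 1) (by positivity) (by
      intro ω
      rw [hV]
      beta_reduce
      split_ifs with h
      · exact (Vb_inc (hA ω) (hinv ω) hv0 h).mono (by linarith)
      · exact inc_of_inv (hinv ω))
  rw [DF_xv p X V] at h1
  have h2 : ((X : ℝ) - k0) * Real.log 2 - Real.log K ≤ Ex p (fun ω => lv (V ω) - lv (Tx c X)) := by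
    rw [← Ex_const hp.sum_one (((X : ℝ) - k0) * Real.log 2 - Real.log K)]
    refine Ex_mono hp0 fun ω hω => ?_
    rw [hVs ω hω]
    unfold Vb
    rw [Vm_lv X i0 _ (by rw [Pi.single_eq_same]; exact hv0.ne'), Pi.single_eq_same,
      abs_of_pos hv0, hv, Real.log_div (by positivity) (by positivity), Real.log_pow,
      one_div, Real.log_inv]
    linarith
  have h3 : CH p n (fun ω => (cl (V ω) (xv X (n ω)), Z ω)) ≤
      CH p n (fun ω => (cl (Vb X i0 v) (xv X (n ω)), Z ω)) := by
    refine CH_mono_cond hp0 fun ω ω' a b e => ?_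
    simp only [Prod.mk.injEq] at e ⊢
    rw [hVs ω a, hVs ω' b] at e
    exact e
  have h4 := CH_le_add hp0 n (fun ω => bl X k0 i0 (n ω))
    (fun ω => (cl (Vb X i0 v) (xv X (n ω)), Z ω))
  have h5 : CH p (fun ω => bl X k0 i0 (n ω)) (fun ω => (cl (Vb X i0 v) (xv X (n ω)), Z ω)) ≤
      c * Real.log 5 := by
    have g := CH_le_vec hp0 hp.sum_one (fun ω => bl X k0 i0 (n ω))
      (fun ω => (cl (Vb X i0 v) (xv X (n ω)), Z ω)) (fun _ => 2) (by
      intro ω ω' a b e i
      have e1 : cl (Vb X i0 v) (xv X (n ω)) i = cl (Vb X i0 v) (xv X (n ω')) i :=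
        congrFun (Prod.ext_iff.mp e).1 i
      rw [Vb_cl X i0 hv0, Vb_cl X i0 hv0] at e1
      unfold bl
      split_ifs with hi
      · rw [if_pos hi, if_pos hi] at e1
        have e2 := abs_sub_of_floor e1
        rw [← sub_div, ← sub_div, abs_div, abs_div, abs_of_pos hv0, abs_of_pos h2X, div_div,
          div_le_one (by positivity)] at e2
        refine (tp_near X k0 _ _ (L := 1) ?_).trans (by norm_num)
        refine e2.trans ?_
        rw [one_mul]
        rcases le_or_gt k0 X with hk | hk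
        · have e3 : (2 : ℝ) ^ X * v = 2 ^ (X - k0) / K := by
            rw [hv]
            have : (2 : ℝ) ^ X = 2 ^ (X - k0) * 2 ^ k0 := by
              rw [← pow_add]
              congr 1
              omega
            rw [this, one_div, inv_pow]
            field_simp
          rw [e3]
          exact div_le_self (by positivity) hK
        · omega
      · rw [if_neg hi, if_neg hi] at e1
        rw [e1, sub_self, Int.cast_zero, abs_zero]
        norm_num)
    rw [Ex_const hp.sum_one] at g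
    refine g.trans (le_of_eq ?_)
    norm_num
  have h6 : CH p n (fun ω => (bl X k0 i0 (n ω), (cl (Vb X i0 v) (xv X (n ω)), Z ω))) ≤
      CH p n (fun ω => (bl X k0 i0 (n ω), Z ω)) := by
    refine CH_mono_cond hp0 fun ω ω' _ _ e => ?_
    simp only [Prod.mk.injEq] at e ⊢
    exact ⟨e.1, e.2.2⟩
  have h7 := CH_le_add hp0 n (fun ω => bl X k1 i0 (n ω)) (fun ω => (bl X k0 i0 (n ω), Z ω))
  have h8 : CH p n (fun ω => (bl X k1 i0 (n ω), (bl X k0 i0 (n ω), Z ω))) ≤
      ((X : ℝ) - k1) * Real.log 2 + Real.log 5 := by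
    have g1 : CH p n (fun ω => (bl X k1 i0 (n ω), (bl X k0 i0 (n ω), Z ω))) ≤
        CH p (fun ω => tp X X (n ω i0))
          (fun ω => (bl X k1 i0 (n ω), (bl X k0 i0 (n ω), Z ω))) := by
      refine CH_mono_left hp0 fun ω ω' _ _ e => ?_
      simp only [Prod.mk.injEq, tp_self] at e
      funext i
      by_cases hi : i = i0
      · rw [hi]
        exact e.1
      · have := congrFun e.2.1 i
        unfold bl at this
        rwa [if_neg hi, if_neg hi] at this
    have g2 := CH_few_tp hp (fun ω => n ω i0)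
      (fun ω => (bl X k1 i0 (n ω), (bl X k0 i0 (n ω), Z ω))) (X := X) (m := X)
      (L := 2 ^ (X - k1)) (by
        intro ω ω' _ _ e
        simp only [Prod.mk.injEq] at e
        have := congrFun e.1 i0
        unfold bl at this
        rw [if_pos rfl, if_pos rfl] at this
        have h := of_tp_eq X k1 this
        rw [Nat.sub_self, pow_zero, mul_one]
        exact h)
    refine g1.trans (g2.trans ?_)
    have g3 : (1 : ℝ) ≤ 2 ^ (X - k1) := one_le_pow₀ (by norm_num)
    have g4 : Real.log (2 * 2 ^ (X - k1) + 3) ≤ Real.log (2 ^ (X - k1) * 5) :=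
      Real.log_le_log (by positivity) (by linarith)
    rw [Real.log_mul (by positivity) (by norm_num), Real.log_pow, Nat.cast_sub h1X] at g4
    exact g4
  nlinarith [h1, h2, h3, h4, h5, h6, h7, h8]

end Pool.FS21
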