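import Pool.Agent.H21.FS.Law
import Pool.Agent.H16.TT.Tq
import Pool.Agent.H21.BD.Fin
import Pool.Agent.H30.TC.Few
import Pool.Agent.H95.D2.Wts

/-!
# LEMMA FS

A picture of degree `n` in which only the coordinate `i0` has slopes, and the height of `i0` is not
full given the heights of the other coordinates: the slopes of `i0` are polynomials of degree `n` in
the time, to `x₀ X` digits for every `x₀ < h`, and the coefficients are functions of the context up to
few bits.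
-/

set_option autoImplicit false

namespace Pool.FS21

open Finset Real Matrix
open Pool.Agent.H49.Ent Pool.Agent.H32.Dense Pool.STK Pool.POT Pool.FAD Pool.SLO Pool.TQ
open Pool.BD64 (QHd body_dcs)
open Pool.TT37 (dd con_d)
open Pool.K2S (Pe)

variable {c k n : ℕ}

/-- **The hypotheses of FS.** `Z` are the heights over a record, `Wd` the slow digits, `S` the record
of the nonfull rows. -/
structure FsH (H : QHd c k n) {ρ β : Type} (S : H.Ω → ρ) (Wd : H.Ω → β) (Z : H.Ω → Fin c → ℤ)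
    (F : β → H.Tt → H.B → Fin c → ℝ) (i0 : Fin c) (X : ℕ) (C d h ϖ : ℝ) : Prop where
  ok : H.OkNS X C d
  E0 : ∀ ω u i, i ≠ i0 → H.E (H.th ω) u i = 0
  Z_b : ∀ ω i, |(Z ω i : ℝ)| ≤ C * 2 ^ X
  rel : ∀ ω, 0 < H.p ω → ∀ i,
    |(H.hgt ω i : ℝ) - (Z ω i - F (Wd ω) (H.th ω) (H.b ω) i)| ≤ C
  wd : MI H.p H.hgt Wd (fun ω => (H.th ω, H.b ω)) ≤ d
  SY : Det H.p (fun ω => (Wd ω, (H.th ω, H.b ω))) S
  nf : ∀ G : H.Ω → Prop, ϖ ≤ Pe H.p G →
    CH (cond H.p G True) Z (fun ω => (oth i0 (Z ω), (Wd ω, S ω))) ≤ (1 - h) * X * Real.log 2 + d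

theorem line_det (H : QHd c k n) : Det H.p H.line H.b :=
  fun _ _ _ _ e => (Prod.ext_iff.mp (Prod.ext_iff.mp e).2).2

theorem okd_mi {H : QHd c k n} {X : ℕ} {C d : ℝ} (ok : H.OkNS X C d) :
    MI H.p H.th H.line H.b ≤ d := by
  have h0 := ok.h0
  unfold MI
  have : CH H.p H.th (fun ω => (H.line ω, H.b ω)) = CH H.p H.th H.line := by
    refine CH_congr ok.law.nonneg (fun _ _ _ _ e => (Prod.ext_iff.mp e).1)
      (fun _ _ _ _ e => (Prod.ext_iff.mp e).1) (fun ω ω' _ _ e => (Prod.ext_iff.mp e).1) ?_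
    intro ω ω' x y e
    exact Prod.ext e (line_det H ω ω' x y e)
  rw [this]
  exact h0

theorem FsH.fs {H : QHd c k n} {ρ β : Type} {S : H.Ω → ρ} {Wd : H.Ω → β} {Z : H.Ω → Fin c → ℤ}
    {F : β → H.Tt → H.B → Fin c → ℝ} {i0 : Fin c} {X : ℕ} {C d h ϖ : ℝ} (hC : 0 ≤ C)
    (hH : FsH H S Wd Z F i0 X C d h ϖ) :
    FsOk H.p H.line H.th H.b H.hgt S Wd Z i0 X (2 * C) d h ϖ := by
  have hX : (0 : ℝ) < 2 ^ X := by positivity
  refine ⟨hH.ok.law, line_det H, okd_mi hH.ok, fun ω i => (hH.Z_b ω i).trans (by nlinarith), ?_,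
    ?_, hH.wd, hH.SY, hH.nf⟩
  · intro ω ω' a b e1 e2 e3 e4 i
    have h1 := hH.rel ω a i
    have h2 := hH.rel ω' b i
    rw [e1, e2, e3, e4] at h1
    push_cast
    rw [abs_le] at h1 h2 ⊢
    constructor <;> linarith [h1.1, h1.2, h2.1, h2.2]
  · intro ω ω' a b e1 e2 e3 e4 i
    unfold oth
    split_ifs with hi
    · simp only [sub_self, Int.cast_zero, abs_zero]
      linarith
    · have h1 := hH.rel ω a i
      have h2 := hH.rel ω' b i
      have h3 := congrFun e1 i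
      unfold oth at h3
      rw [if_neg hi, if_neg hi] at h3
      rw [e2, e3, e4, h3] at h1
      push_cast
      rw [abs_le] at h1 h2 ⊢
      constructor <;> linarith [h1.1, h1.2, h2.1, h2.2]

/-- **The vectors of `n + 2` times are short.** -/
theorem fs_dd (c k n : ℕ) (hn : 1 ≤ n) {h x₀ ε₀ : ℝ} (_hh : 0 < h) (hh1 : h ≤ 1) (hx₀ : 0 < x₀)
    (hxh : x₀ < h) (hε₀ : 0 < ε₀) :
    ∃ io ϖ : ℝ, 0 < io ∧ 0 < ϖ ∧ ∀ C : ℝ, 1 ≤ C → ∃ X0 : ℕ,
    ∀ (H : QHd c k n) (ρ β : Type) (S : H.Ω → ρ) (Wd : H.Ω → β) (Z : H.Ω → Fin c → ℤ)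
      (F : β → H.Tt → H.B → Fin c → ℝ) (i0 : Fin c) (X : ℕ), X0 ≤ X →
      FsH H S Wd Z F i0 X C (io * X) h ϖ →
      Pe (tup H.p H.line (n + 2)) (fun w => ∃ u, (2 : ℝ) ^ (-(x₀ * X)) <
        |dd n H.tau H.E u (fun j => H.th (w j.succ)) i0|) ≤ ε₀ := by
  classical
  rcases Nat.eq_zero_or_pos c with rfl | hc
  · exact ⟨1, 1, one_pos, one_pos, fun C _ => ⟨0, fun H ρ β S Wd Z F i0 => i0.elim0⟩⟩
  have hcR : (0 : ℝ) < c := by exact_mod_cast hc
  have hc1 : (1 : ℝ) ≤ c := by exact_mod_cast hc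
  have hL2 : 0 < Real.log 2 := Real.log_pos (by norm_num)
  have hL1 : Real.log 2 ≤ 1 := by
    have := Real.log_two_lt_d9
    linarith
  obtain ⟨g, hg⟩ : ∃ g : ℝ, g = (h - x₀) * Real.log 2 := ⟨_, rfl⟩
  have hg0 : 0 < g := by rw [hg]; exact mul_pos (by linarith) hL2
  -- the constants
  obtain ⟨η, hη⟩ : ∃ η : ℝ, η = g * ε₀ / 32 := ⟨_, rfl⟩
  have hη0 : 0 < η := by rw [hη]; positivity
  obtain ⟨io1, hio1, hB⟩ := body_dcs c k n hn η hη0
  obtain ⟨N, hN⟩ : ∃ N : ℝ, N = (n : ℝ) + 4 := ⟨_, rfl⟩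
  have hN4 : 4 ≤ N := by
    rw [hN]
    have : (0 : ℝ) ≤ n := Nat.cast_nonneg n
    linarith
  obtain ⟨ϖ, hϖ⟩ : ∃ ϖ : ℝ, ϖ = g * ε₀ / (64 * c) := ⟨_, rfl⟩
  have hϖ0 : 0 < ϖ := by rw [hϖ]; positivity
  obtain ⟨io, hio⟩ : ∃ io : ℝ, io = min io1 (min (g * ε₀ / (32 * N)) (g / 32)) := ⟨_, rfl⟩
  have hio0 : 0 < io := by
    rw [hio]
    exact lt_min hio1 (lt_min (by positivity) (by positivity))
  have hi1 : io ≤ io1 := by rw [hio]; exact min_le_left _ _
  have hi2 : io ≤ g * ε₀ / (32 * N) := by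
    rw [hio]
    exact (min_le_right _ _).trans (min_le_left _ _)
  have hi3 : io ≤ g / 32 := by
    rw [hio]
    exact (min_le_right _ _).trans (min_le_right _ _)
  obtain ⟨K, hK⟩ := exists_nat_gt (64 * c / (ε₀ * g))
  have hK0 : 0 < K := by
    have : (0 : ℝ) < K := lt_of_le_of_lt (by positivity) hK
    exact_mod_cast this
  have hKR : (0 : ℝ) < K := by exact_mod_cast hK0
  refine ⟨io, ϖ, hio0, hϖ0, fun C hC => ?_⟩
  obtain ⟨K1, r, X1, hB⟩ := hB C hC
  obtain ⟨K2, hK2⟩ : ∃ K2 : ℝ, K2 = max K1 1 := ⟨_, rfl⟩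
  have hK20 : 0 < K2 := by rw [hK2]; exact lt_max_of_lt_right one_pos
  have hK21 : K1 ≤ K2 := by rw [hK2]; exact le_max_left _ _
  obtain ⟨D, hD⟩ : ∃ D : ℝ, D = |Real.log (c * K2)| + |Cc c (c + 1)| / ε₀ + |Cc c c| +
      (c * Real.log (2 * (2 * C) + 1) + c * Real.log (2 * (2 * C) + 1)) +
      Real.log (K + 1) + c * Real.log (9 * C) := ⟨_, rfl⟩
  obtain ⟨X2, hX2⟩ := ex_lin (a := g / 32) (b := D) (by positivity)
  refine ⟨max X1 (max X2 1), fun H ρ β S Wd Z F i0 X hX hH => ?_⟩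
  have l1 : X1 ≤ X := (le_max_left _ _).trans hX
  have l2 : X2 ≤ X := ((le_max_left _ _).trans (le_max_right _ _)).trans hX
  have l3 : (1 : ℝ) ≤ X := by
    exact_mod_cast ((le_max_right _ _).trans (le_max_right _ _)).trans hX
  have hX0 : (0 : ℝ) < X := by linarith
  have hDX := hX2 X l2
  have h2X : (0 : ℝ) < 2 ^ X := by positivity
  obtain ⟨A0, hA, hA2, hA3, hbody⟩ := hB H X l1
    { hH.ok with
      h0 := hH.ok.h0.trans (mul_le_mul_of_nonneg_right hi1 hX0.le)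
      h2 := hH.ok.h2.trans (mul_le_mul_of_nonneg_right hi1 hX0.le)
      y_f := by
        have h1 := hH.ok.y_f
        have h2 := mul_le_mul_of_nonneg_right hi1 hX0.le
        linarith
      t_f := by
        have h1 := hH.ok.t_f
        have h2 := mul_le_mul_of_nonneg_right hi1 hX0.le
        linarith }
  by_contra hcon
  push Not at hcon
  have hfs := hH.fs (by linarith)
  obtain ⟨a, ha⟩ : ∃ a : ℝ, a = (2 : ℝ) ^ (-(x₀ * X)) := ⟨_, rfl⟩
  have ha0 : 0 < a := by rw [ha]; positivity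
  rw [← ha] at hcon
  obtain ⟨a₀, ha₀⟩ : ∃ a₀ : ℝ, a₀ = a / (c * K2) := ⟨_, rfl⟩
  have ha₀0 : 0 < a₀ := by rw [ha₀]; positivity
  have hq0 := (tup_isLaw hfs.law H.line (n + 2)).nonneg
  -- the column of the coordinate
  have hcol : ∀ w : Fin (n + 2 + 1) → H.Ω, ∀ i, i ≠ i0 →
      A0 (fun j : Fin (n + 2) => H.th (w j.succ)) i
        (bg i0 (A0 fun j : Fin (n + 2) => H.th (w j.succ))) = 0 := by
    intro w i hi
    have hne := bg_ne i0 (hA fun j : Fin (n + 2) => H.th (w j.succ)).1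
    rcases hA3 (fun j : Fin (n + 2) => w j.succ)
      (bg i0 (A0 fun j : Fin (n + 2) => H.th (w j.succ))) with ⟨u, hu⟩ | ⟨j, hj⟩
    · have h1 := congrFun hu i
      beta_reduce at h1
      rw [h1]
      unfold dd
      split_ifs
      · refine Finset.sum_eq_zero fun j _ => ?_
        rw [hH.E0 _ u i hi, mul_zero]
      · rfl
    · have h1 := congrFun hj i
      have h2 := congrFun hj i0
      beta_reduce at h1 h2
      rw [h1]
      rw [h2] at hne
      rw [Pi.single_apply] at hne ⊢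
      by_cases h3 : i0 = j
      · rw [if_neg (fun h => hi (h.trans h3.symm))]
      · rw [if_neg h3] at hne
        exact absurd rfl hne
  have key := fs_ineq (N := n + 2) hfs (by linarith) hh1 hϖ0 (A0 := A0)
    (fun t => (hA t).1) (fun t => (hA t).2.2) hbody
    (G := fun t => a₀ ≤ |A0 t i0 (bg i0 (A0 t))|) ha₀0 (fun t h => h)
    (fun w _ i hi => hcol w i hi) hε₀ (by
      refine hcon.le.trans ?_
      rw [Pool.K2S.Pe_eq, Pool.K2S.Pe_eq]
      refine Finset.sum_le_sum fun w _ => ?_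
      by_cases hw : ∃ u, a < |dd n H.tau H.E u (fun j => H.th (w j.succ)) i0|
      · obtain ⟨u, hu⟩ := hw
        have h1 : a₀ ≤ |A0 (fun j => H.th (w j.succ)) i0
            (bg i0 (A0 fun j => H.th (w j.succ)))| := by
          rw [ha₀]
          exact bg_long (hA _).1 hK20 (fun b => (hA2 (fun j => w j.succ) u b).trans hK21) hu
        rw [if_pos ⟨u, hu⟩, if_pos h1]
      · rw [if_neg hw]
        split_ifs
        · exact hq0 w
        · exact le_rfl) hK0
  -- the estimates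
  have e1 : Real.log a₀ = -(x₀ * X) * Real.log 2 - Real.log (c * K2) := by
    rw [ha₀, Real.log_div ha0.ne' (by positivity), ha, Real.log_rpow (by norm_num)]
  have e2 : (η * X + |Cc c (c + 1)|) / ε₀ = g / 32 * X + |Cc c (c + 1)| / ε₀ := by
    rw [add_div, hη]
    congr 1
    field_simp
  have e3 : ((n + 2 : ℕ) + 1) * (io * X) / ε₀ ≤ g / 32 * X := by
    rw [div_le_iff₀ hε₀]
    have h1 : ((n + 2 : ℕ) + 1 : ℝ) ≤ N := by
      rw [hN]
      push_cast
      linarith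
    have h2 : io * N ≤ g * ε₀ / 32 := by
      have := mul_le_mul_of_nonneg_right hi2 (by linarith : (0 : ℝ) ≤ N)
      refine this.trans (le_of_eq ?_)
      field_simp
    calc ((n + 2 : ℕ) + 1) * (io * X) ≤ N * (io * X) :=
          mul_le_mul_of_nonneg_right h1 (by positivity)
      _ = io * N * X := by ring
      _ ≤ g * ε₀ / 32 * X := mul_le_mul_of_nonneg_right h2 hX0.le
      _ = g / 32 * X * ε₀ := by ring
  have e4 : c * Real.log (4 * (2 * C * 2 ^ X) + 1) ≤ c * (X + Real.log (9 * C)) := by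
    refine mul_le_mul_of_nonneg_left ?_ hcR.le
    have h1 : (1 : ℝ) ≤ 2 ^ X := one_le_pow₀ (by norm_num)
    have h2 := log_pow_le (A := 9 * C) (by linarith) X (y := 4 * (2 * C * 2 ^ X) + 1)
      (by positivity) (by nlinarith)
    have h3 : X * Real.log 2 ≤ X := mul_le_of_le_one_right hX0.le hL1
    linarith
  have l9 : 0 ≤ Real.log (9 * C) := Real.log_nonneg (by linarith)
  have e5 : (1 / ε₀ / K + 1 / ε₀ * ϖ) ≤ g / (32 * c) := by
    have h1 : 1 / ε₀ / K ≤ g / (64 * c) := by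
      rw [div_div, div_le_div_iff₀ (by positivity) (by positivity)]
      rw [div_lt_iff₀ (by positivity)] at hK
      linarith
    have h2 : 1 / ε₀ * ϖ = g / (64 * c) := by
      rw [hϖ]
      field_simp
    have h3 : g / (64 * c) + g / (64 * c) = g / (32 * c) := by
      field_simp
      ring
    linarith
  have e5' : 0 ≤ 1 / ε₀ / K + 1 / ε₀ * ϖ := by positivity
  have g32 : g / 32 ≤ 1 := by
    rw [hg]
    have : (h - x₀) * Real.log 2 ≤ 1 * 1 := mul_le_mul (by linarith) hL1 hL2.le zero_le_one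
    linarith
  have e6 : (1 / ε₀ / K + 1 / ε₀ * ϖ) * (c * Real.log (4 * (2 * C * 2 ^ X) + 1)) ≤
      g / 32 * X + c * Real.log (9 * C) := by
    have h0 : 0 ≤ (c : ℝ) * (X + Real.log (9 * C)) := by positivity
    calc (1 / ε₀ / K + 1 / ε₀ * ϖ) * (c * Real.log (4 * (2 * C * 2 ^ X) + 1)) ≤
          (1 / ε₀ / K + 1 / ε₀ * ϖ) * (c * (X + Real.log (9 * C))) :=
          mul_le_mul_of_nonneg_left e4 e5'
      _ ≤ g / (32 * c) * (c * (X + Real.log (9 * C))) := mul_le_mul_of_nonneg_right e5 h0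
      _ = g / 32 * X + g / 32 * Real.log (9 * C) := by
          field_simp
      _ ≤ g / 32 * X + 1 * (c * Real.log (9 * C)) := by
          have : g / 32 * Real.log (9 * C) ≤ 1 * (c * Real.log (9 * C)) := by
            refine mul_le_mul g32 ?_ l9 zero_le_one
            nlinarith
          linarith
      _ = g / 32 * X + c * Real.log (9 * C) := by ring
  have e7 : io * X ≤ g / 32 * X := mul_le_mul_of_nonneg_right hi3 hX0.le
  have m1 := le_abs_self (Real.log (c * K2))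
  have m2 := le_abs_self (Cc c c)
  have hgX : g * X = (h - x₀) * Real.log 2 * X := by rw [hg]
  have hgX0 : 0 < g * X := by positivity
  rw [e1, e2] at key
  rw [hD] at hDX
  nlinarith [key, e3, e6, e7, m1, m2, hgX, hgX0, hDX]

end Pool.FS21
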