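import Pool.Agent.H21.FS.Blk

/-!
# FS: the inequality for one block
-/

set_option autoImplicit false

namespace Pool.FS21

open Finset Real Matrix
open Pool.Agent.H49.Ent Pool.Agent.H32.Dense Pool.STK Pool.POT Pool.FAD Pool.SLO Pool.TQ
open Pool.LPX (tp tp_near of_tp_eq tp_self CH_few_tp)
open Pool.K2S (Pe)

variable {c N : ℕ} {Ω Λ τ B β σ : Type} [Fintype Ω]

theorem tp_abs (X k : ℕ) (z : ℤ) : |(tp X k z : ℝ)| ≤ |(z : ℝ)| + 1 := by
  have h := tp_near X k z 0 (L := |(z : ℝ)|) (by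
    rw [Int.cast_zero, sub_zero]
    exact le_mul_of_one_le_right (abs_nonneg _) (one_le_pow₀ (by norm_num)))
  have h0 : tp X k 0 = 0 := by
    unfold tp
    simp
  rwa [h0, sub_zero] at h

/-- The block determines the vector up to the digits behind. -/
theorem bl_near {X k : ℕ} {i0 : Fin c} {n n' Z Z' : Fin c → ℤ} {F : Fin c → ℝ} {C : ℝ}
    (hC : 0 ≤ C) (h : ∀ i, |(n i : ℝ) - (Z i - F i)| ≤ C) (h' : ∀ i, |(n' i : ℝ) - (Z' i - F i)| ≤ C)
    (i : Fin c) : (bl X k i0 Z = bl X k i0 Z' →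
      |((bl X k i0 n i - bl X k i0 n' i : ℤ) : ℝ)| ≤ 2 * C + 2) ∧
    (bl X k i0 n = bl X k i0 n' → |((bl X k i0 Z i - bl X k i0 Z' i : ℤ) : ℝ)| ≤ 2 * C + 2) := by
  have hP : (1 : ℝ) ≤ 2 ^ (X - k) := one_le_pow₀ (by norm_num)
  have a1 := h i
  have a2 := h' i
  have a3 := h i0
  have a4 := h' i0
  constructor
  · intro e
    have e0 := congrFun e i
    have e1 := congrFun e i0
    unfold bl at e0 e1 ⊢
    rw [if_pos rfl, if_pos rfl] at e1
    split_ifs with hi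
    · have e2 := of_tp_eq X k e1
      refine (tp_near X k _ _ (L := 2 * C + 1) ?_).trans (by linarith)
      have e3 : |(n i0 : ℝ) - n' i0| ≤ 2 ^ (X - k) + 2 * C := by
        rw [abs_le] at e2 a3 a4 ⊢
        constructor <;> linarith [e2.1, e2.2, a3.1, a3.2, a4.1, a4.2]
      nlinarith
    · rw [if_neg hi, if_neg hi] at e0
      rw [e0] at a1
      push_cast
      rw [abs_le] at a1 a2 ⊢
      constructor <;> linarith [a1.1, a1.2, a2.1, a2.2]
  · intro e
    have e0 := congrFun e i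
    have e1 := congrFun e i0
    unfold bl at e0 e1 ⊢
    rw [if_pos rfl, if_pos rfl] at e1
    split_ifs with hi
    · have e2 := of_tp_eq X k e1
      refine (tp_near X k _ _ (L := 2 * C + 1) ?_).trans (by linarith)
      have e3 : |(Z i0 : ℝ) - Z' i0| ≤ 2 ^ (X - k) + 2 * C := by
        rw [abs_le] at e2 a3 a4 ⊢
        constructor <;> linarith [e2.1, e2.2, a3.1, a3.2, a4.1, a4.2]
      nlinarith
    · rw [if_neg hi, if_neg hi] at e0
      rw [e0] at a1
      push_cast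
      rw [abs_le] at a1 a2 ⊢
      constructor <;> linarith [a1.1, a1.2, a2.1, a2.2]

/-- The hypotheses, for the block `(k0, k1]` of the coordinate `i0`. -/
structure FbOk (p : Ω → ℝ) (L : Ω → Λ) (th : Ω → τ) (b : Ω → B) (hgt : Ω → Fin c → ℤ)
    (S : Ω → σ) (Wd : Ω → β) (Z : Ω → Fin c → ℤ) (F : β → τ → B → Fin c → ℝ) (i0 : Fin c)
    (X k0 k1 : ℕ) (C d h ϖ : ℝ) : Prop where
  law : IsLaw p
  Lb : Det p L b
  h0 : MI p th L b ≤ d
  Z_b : ∀ ω i, |(Z ω i : ℝ)| ≤ C * 2 ^ X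
  rel : ∀ ω, 0 < p ω → ∀ i, |(hgt ω i : ℝ) - (Z ω i - F (Wd ω) (th ω) (b ω) i)| ≤ C
  wd : MI p hgt Wd (fun ω => (th ω, b ω)) ≤ d
  SY : Det p (fun ω => (Wd ω, (th ω, b ω))) S
  nf : ∀ G : Ω → Prop, ϖ ≤ Pe p G → 0 < Pe p G →
    CH (cond p G True) (fun ω => bl X k1 i0 (Z ω)) (fun ω => (bl X k0 i0 (Z ω), (Wd ω, S ω))) ≤
      (1 - h) * ((k1 : ℝ) - k0) * Real.log 2 + d

variable {p : Ω → ℝ} {L : Ω → Λ} {th : Ω → τ} {b : Ω → B} {hgt : Ω → Fin c → ℤ}
  {S : Ω → σ} {Wd : Ω → β} {Z : Ω → Fin c → ℤ} {F : β → τ → B → Fin c → ℝ} {i0 : Fin c}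
  {X k0 k1 : ℕ} {C d h ϖ : ℝ}

/-- **The inequality for one block.** -/
theorem fb_ineq (hH : FbOk p L th b hgt S Wd Z F i0 X k0 k1 C d h ϖ) (hC : 1 ≤ C) (hh : h ≤ 1)
    (h01 : k0 ≤ k1) (h1X : k1 ≤ X) (hϖ : 0 < ϖ) {A0 : (Fin N → τ) → Matrix (Fin c) (Fin c) ℝ}
    (hdet : ∀ t, (A0 t).det ≠ 0) (hinv : ∀ t i j, |(A0 t)⁻¹ i j| ≤ 2 ^ X) {e₀ : ℝ}
    (hbody : DF (tup p L N) (fun _ => Tx c X) (fun w => A0 fun j => th (w j.succ))
        (fun w => xv X (hgt (w 0)))
        (fun w => (b (w 0), (th (w 0), fun j : Fin N => th (w j.succ)))) ≤ e₀)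
    {K' : ℝ} (hK' : 1 ≤ K') {m : ℝ} (hm : 0 < m)
    (hmG : m ≤ Pe (tup p L N) fun w =>
      Lg i0 ((1 / 2) ^ k0 / K') (A0 fun j => th (w j.succ))) {K : ℕ} (hK : 0 < K) :
    ((k1 : ℝ) - k0) * Real.log 2 - (e₀ + |Cc c (c + 1)|) / m - Cc c (c + 1) - Real.log K' -
      (c + 1) * Real.log 5 ≤
      (N + 1) * d / m + (c * Real.log (2 * (2 * C + 2) + 1) + c * Real.log (2 * (2 * C + 2) + 1)) +
      ((1 - h) * ((k1 : ℝ) - k0) * Real.log 2 + d + (1 / m / K + 1 / m * ϖ) *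
        (c * Real.log (4 * (2 * C * 2 ^ X) + 1)) + Real.log (K + 1)) := by
  classical
  have hp := hH.law
  have h2X : (1 : ℝ) ≤ 2 ^ X := one_le_pow₀ (by norm_num)
  set q := tup p L N with hq
  have hqL : IsLaw q := tup_isLaw hp L N
  have hq0 := hqL.nonneg
  have him : Im q p (fun w => w 0) := im_tup hp.nonneg L N 0
  set ts : (Fin (N + 1) → Ω) → Fin N → τ := fun w j => th (w j.succ) with hts
  set Gw : (Fin (N + 1) → Ω) → Prop := fun w => Lg i0 ((1 / 2) ^ k0 / K') (A0 (ts w)) with hGw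
  set m' := Pe q Gw with hm'
  have hm'0 : 0 < m' := hm.trans_le hmG
  have hmm : m ≤ m' := hmG
  set r := cond q Gw True with hr
  have hrL : IsLaw r := cond_law hq0 hm'0
  have hr0 := hrL.nonneg
  have hrq : ∀ w, 0 < r w → 0 < q w ∧ Gw w := fun w hw => by
    have := (cond_pos_iff hq0 Gw True w).1 hw
    exact ⟨this.1, of_eq_true this.2⟩
  have hrle : ∀ w, r w ≤ 1 / m * q w := fun w =>
    (cond_le hq0 w).trans (mul_le_mul_of_nonneg_right
      (one_div_le_one_div_of_le hm hmm) (hq0 w))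
  have hd0 : 0 ≤ d := (MI_nonneg hp.nonneg _ _ _).trans hH.h0
  have hNd : 0 ≤ ((N : ℝ) + 1) * d := by positivity
  have hdm : (N + 1) * d / m' ≤ (N + 1) * d / m := div_le_div_of_nonneg_left hNd hm hmm
  -- the informations
  have miN : ∀ {S : Type} (X' : Ω → S), MI q (fun w => X' (w 0)) ts (fun w => b (w 0)) ≤
      N * d := fun X' => tup_miN hp.nonneg hH.Lb hH.h0 X'
  set Y : (Fin (N + 1) → Ω) → B × (τ × (Fin N → τ)) :=
    fun w => (b (w 0), (th (w 0), fun j : Fin N => th (w j.succ))) with hY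
  have hdG : Det q Y Gw := by
    intro w w' a a' e
    simp only [hY, Prod.mk.injEq] at e
    simp only [hGw, hts]
    rw [e.2.2]
  -- the body
  set A : (Fin (N + 1) → Ω) → Matrix (Fin c) (Fin c) ℝ := fun w => A0 fun j => th (w j.succ)
    with hA
  have hdA : Det q Y A := by
    intro w w' _ _ e
    simp only [hY, Prod.mk.injEq] at e
    simp only [hA]
    rw [e.2.2]
  have hdA' : Det r Y A := fun w w' a b e => hdA w w' (hrq w a).1 (hrq w' b).1 e
  have f1 := DF_ev hqL (G := Gw) (T := fun _ => Tx c X) (V := A)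
    (fun w => xv X (hgt (w 0))) Y hdG (fun _ _ _ _ _ => rfl) hdA (fun _ => Tx_det c X)
    (fun w => hdet _) (c := (c : ℝ) + 1) (by positivity)
    (fun w => inc_of_inv (hinv _)) hm'0
  have f2 : DF r (fun _ => Tx c X) A (fun w => xv X (hgt (w 0))) Y ≤
      (e₀ + |Cc c (c + 1)|) / m := by
    refine f1.trans ?_
    have g1 : DF q (fun _ => Tx c X) A (fun w => xv X (hgt (w 0))) Y + |Cc c (c + 1)| ≤
        e₀ + |Cc c (c + 1)| := by linarith [hbody]
    have g2 : 0 ≤ DF q (fun _ => Tx c X) A (fun w => xv X (hgt (w 0))) Y + |Cc c (c + 1)| := by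
      have := DF_ge hqL.nonneg hqL.sum_one (T := fun _ => Tx c X) (V := A)
        (fun w => xv X (hgt (w 0))) Y (fun _ _ _ _ _ => rfl) hdA (fun _ => Tx_det c X)
        (fun w => hdet _) (c := (c : ℝ) + 1) (by positivity)
        (fun w => inc_of_inv (hinv _))
      have := le_abs_self (Cc c (c + 1))
      linarith
    calc _ ≤ (e₀ + |Cc c (c + 1)|) / m' := div_le_div_of_nonneg_right g1 hm'0.le
      _ ≤ (e₀ + |Cc c (c + 1)|) / m := div_le_div_of_nonneg_left (g2.trans g1) hm hmm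
  have f3 := blk_full hrL h1X (A := A) (fun w => hgt (w 0)) Y hdA' (fun w => hdet _)
    (fun w => hinv _) i0 hK' h01 (fun w hw => (hrq w hw).2)
  -- the slow digits
  have g1 : CH r (fun w => bl X k1 i0 (hgt (w 0))) (fun w => (bl X k0 i0 (hgt (w 0)), Y w)) ≤
      CH r (fun w => bl X k1 i0 (hgt (w 0)))
        (fun w => (bl X k0 i0 (hgt (w 0)), (Wd (w 0), Y w))) +
      MI r (fun w => hgt (w 0)) (fun w => Wd (w 0)) Y := by
    have a1 := MI_data hr0 (A := fun w => bl X k1 i0 (hgt (w 0)))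
      (B := fun w => bl X k0 i0 (hgt (w 0))) (X := fun w => hgt (w 0)) (Y := fun w => Wd (w 0))
      (Z := Y)
      (fun w w' _ _ e => by
        have e1 := (Prod.ext_iff.mp e).1
        simp only at e1 ⊢
        rw [e1])
      (fun w w' _ _ e => by
        have e1 := (Prod.ext_iff.mp e).1
        simp only at e1 ⊢
        rw [e1])
    have a2 : CH r (fun w => bl X k1 i0 (hgt (w 0)))
        (fun w => (Wd (w 0), (bl X k0 i0 (hgt (w 0)), Y w))) =
        CH r (fun w => bl X k1 i0 (hgt (w 0)))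
          (fun w => (bl X k0 i0 (hgt (w 0)), (Wd (w 0), Y w))) := by
      refine CH_congr hr0 (fun _ _ _ _ e => (Prod.ext_iff.mp e).1)
        (fun _ _ _ _ e => (Prod.ext_iff.mp e).1) ?_ ?_ <;>
      · intro w w' _ _ e
        simp only [Prod.mk.injEq] at e ⊢
        tauto
    unfold MI at a1 ⊢
    rw [a2] at a1
    linarith
  have g2 : MI q (fun w => hgt (w 0)) (fun w => Wd (w 0)) Y ≤ (N + 1) * d := by
    have a1 : MI q (fun w => hgt (w 0)) (fun w => Wd (w 0)) Y ≤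
        MI q (fun w => hgt (w 0)) (fun w => (Wd (w 0), ts w))
          (fun w => (th (w 0), b (w 0))) := by
      have b1 := MI_cond_right hq0 (X := fun w => hgt (w 0))
        (Y := fun w => (Wd (w 0), ts w)) (B := ts) (Z := fun w => (th (w 0), b (w 0)))
        (fun w w' _ _ e => (Prod.ext_iff.mp (Prod.ext_iff.mp e).1).2)
      refine le_trans (le_of_eq ?_) b1
      refine MI_congr hq0 ?_ ?_ ?_ ?_ ?_ ?_ <;>
      · intro w w' _ _ e
        simp only [hY, hts, Prod.mk.injEq] at e ⊢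
        tauto
    have a2 := MI_chain hq0 (fun w => hgt (w 0)) (fun w => Wd (w 0)) ts
      (fun w => (th (w 0), b (w 0)))
    have a3 : MI q (fun w => hgt (w 0)) (fun w => Wd (w 0))
        (fun w => (th (w 0), b (w 0))) ≤ d := by
      rw [him.MI hgt Wd (fun ω => (th ω, b ω))]
      exact hH.wd
    have a4 : MI q (fun w => hgt (w 0)) ts (fun w => (Wd (w 0), (th (w 0), b (w 0)))) ≤
        N * d := by
      refine le_trans ?_ (miN (fun ω => (hgt ω, (Wd ω, th ω))))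
      have b1 := MI_data hq0 (A := fun w => hgt (w 0)) (B := fun w => (Wd (w 0), th (w 0)))
        (X := fun w => (hgt (w 0), (Wd (w 0), th (w 0)))) (Y := ts)
        (Z := fun w => b (w 0))
        (fun w w' _ _ e => (Prod.ext_iff.mp (Prod.ext_iff.mp e).1).1)
        (fun w w' _ _ e => (Prod.ext_iff.mp (Prod.ext_iff.mp e).1).2)
      refine le_trans (le_of_eq ?_) b1
      refine MI_congr hq0 ?_ ?_ ?_ ?_ ?_ ?_ <;>
      · intro w w' _ _ e
        simp only [Prod.mk.injEq] at e ⊢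
        tauto
    linarith
  have g3 : MI r (fun w => hgt (w 0)) (fun w => Wd (w 0)) Y ≤ (N + 1) * d / m := by
    have := MI_ev hqL (G := Gw) (fun w => hgt (w 0)) (fun w => Wd (w 0)) Y
      (fun w w' a b e => hdG w w' a b (Prod.ext_iff.mp e).2) hm'0
    refine this.trans (le_trans ?_ hdm)
    exact div_le_div_of_nonneg_right g2 hm'0.le
  -- the exchange
  have hrp : ∀ w, 0 < r w → 0 < p (w 0) := fun w hw => him.pos hq0 (hrq w hw).1
  have hrel : ∀ w w', 0 < r w → 0 < r w' → (Wd (w 0), Y w) = (Wd (w' 0), Y w') →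
      ∀ i, |(hgt (w 0) i : ℝ) - (Z (w 0) i - F (Wd (w' 0)) (th (w' 0)) (b (w' 0)) i)| ≤ C := by
    intro w w' a _ e i
    simp only [hY, Prod.mk.injEq] at e
    have h1 := hH.rel _ (hrp w a) i
    rw [e.1, e.2.1, e.2.2.1] at h1
    exact h1
  have g4 := CH_exch hrL (fun w => bl X k1 i0 (hgt (w 0))) (fun w => bl X k1 i0 (Z (w 0)))
    (fun w => bl X k0 i0 (hgt (w 0))) (fun w => bl X k0 i0 (Z (w 0)))
    (fun w => (Wd (w 0), Y w)) (a := 2 * C + 2) (b := 2 * C + 2) (by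
      intro w w' a b e1 e2 i
      exact (bl_near (by linarith) (hrel w w' a b e2) (hrel w' w' b b rfl) i).1 e1) (by
      intro w w' a b e1 e2 i
      exact (bl_near (by linarith) (hrel w w' a b e2) (hrel w' w' b b rfl) i).2 e1)
  -- the record
  have g5 : CH r (fun w => bl X k1 i0 (Z (w 0)))
      (fun w => (bl X k0 i0 (Z (w 0)), (Wd (w 0), Y w))) ≤
      CH r (fun w => bl X k1 i0 (Z (w 0)))
        (fun w => (bl X k0 i0 (Z (w 0)), (Wd (w 0), S (w 0)))) := by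
    refine CH_mono_cond hr0 fun w w' a b e => ?_
    simp only [hY, Prod.mk.injEq] at e ⊢
    exact ⟨e.1, e.2.1, hH.SY _ _ (hrp w a) (hrp w' b)
      (Prod.ext e.2.1 (Prod.ext e.2.2.2.1 e.2.2.1))⟩
  have hbb : ∀ ω i, |(bl X k1 i0 (Z ω) i : ℝ)| ≤ 2 * C * 2 ^ X := by
    intro ω i
    have hC2 : 1 ≤ C * 2 ^ X := one_le_mul_of_one_le_of_one_le hC h2X
    unfold bl
    split_ifs
    · exact (tp_abs X k1 _).trans (by linarith [hH.Z_b ω i0])
    · linarith [hH.Z_b ω i]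
  have hall : ∀ q' : Ω → ℝ, IsLaw q' → (∀ ω, 0 < q' ω → 0 < p ω) →
      CH q' (fun ω => bl X k1 i0 (Z ω)) (fun ω => (bl X k0 i0 (Z ω), (Wd ω, S ω))) ≤
        c * Real.log (4 * (2 * C * 2 ^ X) + 1) :=
    fun q' hq' _ => CH_cnt hq' _ _ fun ω _ i => hbb ω i
  have hGn : 0 ≤ (c : ℝ) * Real.log (4 * (2 * C * 2 ^ X) + 1) := by
    have : 0 ≤ Real.log (4 * (2 * C * 2 ^ X) + 1) := Real.log_nonneg (by
      have : (0 : ℝ) ≤ 2 * C * 2 ^ X := by positivity
      linarith)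
    positivity
  have hb1n : 0 ≤ (1 - h) * ((k1 : ℝ) - k0) * Real.log 2 + d := by
    have h2 : 0 ≤ 1 - h := by linarith
    have h3 : (0 : ℝ) ≤ (k1 : ℝ) - k0 := by
      have : (k0 : ℝ) ≤ k1 := by exact_mod_cast h01
      linarith
    have := Real.log_nonneg (show (1 : ℝ) ≤ 2 by norm_num)
    positivity
  have hup : CH r (fun w => bl X k1 i0 (Z (w 0)))
        (fun w => (bl X k0 i0 (Z (w 0)), (Wd (w 0), S (w 0)))) ≤
      (1 - h) * ((k1 : ℝ) - k0) * Real.log 2 + d + (1 / m / K + 1 / m * ϖ) *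
        (c * Real.log (4 * (2 * C * 2 ^ X) + 1)) + Real.log (K + 1) :=
    up_up him hp hrL (F := 1 / m) (m₀ := ϖ) (by positivity) hrle hϖ.le hb1n hGn
      (fun ω => bl X k1 i0 (Z ω)) (fun ω => (bl X k0 i0 (Z ω), (Wd ω, S ω)))
      (fun B hB hB0 => hH.nf B hB hB0) hall hK
  linarith

end Pool.FS21
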