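import Pool.Agent.H16.TT.TqG

/-!
# FS: the inequality

Heights of several coordinates; all slopes vanish except those of the coordinate `i0`. `FsOk`: the
height of `i0` is not full given the heights of the other coordinates, the slow digits `Wd` and the
record `S`. `fs_ineq`: the column of `i0` in a body in which the heights are full is short.
-/

set_option autoImplicit false

namespace Pool.FS21

open Finset Real Matrix
open Pool.Agent.H49.Ent Pool.Agent.H32.Dense Pool.STK Pool.POT Pool.FAD Pool.SLO Pool.TQ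
open Pool.K2S (Pe)

variable {c N : ℕ}

/-- The other coordinates. -/
def oth (i0 : Fin c) (n : Fin c → ℤ) (i : Fin c) : ℤ := if i = i0 then 0 else n i

theorem pr_oth (i0 : Fin c) {κ : Fin c → ℝ} (hκ : ∀ i, i ≠ i0 → κ i = 0) (n : Fin c → ℤ) :
    pr i0 κ n = oth i0 n := by
  funext i
  unfold pr oth
  split_ifs with h
  · rfl
  · rw [hκ i h, zero_mul, sub_zero, Int.floor_intCast]

/-- The largest entry of a row. -/
theorem exists_big {A : Matrix (Fin c) (Fin c) ℝ} (i0 : Fin c) :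
    ∃ b, ∀ j, |A i0 j| ≤ |A i0 b| := by
  have : Nonempty (Fin c) := ⟨i0⟩
  exact Finite.exists_max fun j => |A i0 j|

/-- The largest entry of a row. -/
noncomputable def bg (i0 : Fin c) (A : Matrix (Fin c) (Fin c) ℝ) : Fin c :=
  (exists_big (A := A) i0).choose

theorem bg_max (i0 : Fin c) (A : Matrix (Fin c) (Fin c) ℝ) (j : Fin c) :
    |A i0 j| ≤ |A i0 (bg i0 A)| := (exists_big (A := A) i0).choose_spec j

theorem bg_ne (i0 : Fin c) {A : Matrix (Fin c) (Fin c) ℝ} (hA : A.det ≠ 0) :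
    A i0 (bg i0 A) ≠ 0 := by
  obtain ⟨j, hj⟩ := exists_row hA i0
  intro h0
  have := bg_max i0 A j
  rw [h0, abs_zero] at this
  exact hj (abs_eq_zero.1 (le_antisymm this (abs_nonneg _)))

/-- A long vector gives a long entry. -/
theorem bg_long {A : Matrix (Fin c) (Fin c) ℝ} (hA : A.det ≠ 0) {v : Fin c → ℝ} {K1 a : ℝ}
    (hK : 0 < K1) (h : ∀ b, |(A⁻¹ *ᵥ v) b| ≤ K1) {i0 : Fin c} (ha : a < |v i0|) :
    a / (c * K1) ≤ |A i0 (bg i0 A)| := by
  have hc : 0 < c := i0.pos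
  have hcR : (0 : ℝ) < c := by exact_mod_cast hc
  have h1 : v = A *ᵥ (A⁻¹ *ᵥ v) := by
    rw [Matrix.mulVec_mulVec, Matrix.mul_nonsing_inv _ (isUnit_iff_ne_zero.2 hA),
      Matrix.one_mulVec]
  have h2 : |v i0| ≤ c * (|A i0 (bg i0 A)| * K1) := by
    have h4 : v i0 = ∑ b, A i0 b * (A⁻¹ *ᵥ v) b := by
      conv_lhs => rw [h1]
      rfl
    rw [h4]
    refine (Finset.abs_sum_le_sum_abs _ _).trans ?_
    have : ∀ b ∈ (Finset.univ : Finset (Fin c)), |A i0 b * (A⁻¹ *ᵥ v) b| ≤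
        |A i0 (bg i0 A)| * K1 := by
      intro b _
      rw [abs_mul]
      exact mul_le_mul (bg_max i0 A b) (h b) (abs_nonneg _) (abs_nonneg _)
    refine (Finset.sum_le_sum this).trans (le_of_eq ?_)
    rw [Finset.sum_const, Finset.card_univ, Fintype.card_fin, nsmul_eq_mul]
  rw [div_le_iff₀ (by positivity)]
  calc a ≤ |v i0| := ha.le
    _ ≤ c * (|A i0 (bg i0 A)| * K1) := h2
    _ = |A i0 (bg i0 A)| * (c * K1) := by ring

variable {Ω Λ τ B β σ : Type} [Fintype Ω]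

/-- The hypotheses. -/
structure FsOk (p : Ω → ℝ) (L : Ω → Λ) (th : Ω → τ) (b : Ω → B) (hgt : Ω → Fin c → ℤ)
    (S : Ω → σ) (Wd : Ω → β) (Z : Ω → Fin c → ℤ) (i0 : Fin c) (X : ℕ) (C d h ϖ : ℝ) :
    Prop where
  law : IsLaw p
  Lb : Det p L b
  h0 : MI p th L b ≤ d
  Z_b : ∀ ω i, |(Z ω i : ℝ)| ≤ C * 2 ^ X
  rel : ∀ ω ω', 0 < p ω → 0 < p ω' → Z ω = Z ω' → Wd ω = Wd ω' → th ω = th ω' → b ω = b ω' →
    ∀ i, |((hgt ω i - hgt ω' i : ℤ) : ℝ)| ≤ C
  rel2 : ∀ ω ω', 0 < p ω → 0 < p ω' → oth i0 (hgt ω) = oth i0 (hgt ω') → Wd ω = Wd ω' →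
    th ω = th ω' → b ω = b ω' → ∀ i, |((oth i0 (Z ω) i - oth i0 (Z ω') i : ℤ) : ℝ)| ≤ C
  wd : MI p hgt Wd (fun ω => (th ω, b ω)) ≤ d
  SY : Det p (fun ω => (Wd ω, (th ω, b ω))) S
  nf : ∀ G : Ω → Prop, ϖ ≤ Pe p G →
    CH (cond p G True) Z (fun ω => (oth i0 (Z ω), (Wd ω, S ω))) ≤ (1 - h) * X * Real.log 2 + d

variable {p : Ω → ℝ} {L : Ω → Λ} {th : Ω → τ} {b : Ω → B} {hgt : Ω → Fin c → ℤ}
  {S : Ω → σ} {Wd : Ω → β} {Z : Ω → Fin c → ℤ} {i0 : Fin c} {X : ℕ} {C d h ϖ : ℝ}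

/-- **The inequality.** -/
theorem fs_ineq (hH : FsOk p L th b hgt S Wd Z i0 X C d h ϖ) (hC : 1 ≤ C) (hh : h ≤ 1)
    (hϖ : 0 < ϖ) {A0 : (Fin N → τ) → Matrix (Fin c) (Fin c) ℝ}
    (hdet : ∀ t, (A0 t).det ≠ 0) (hinv : ∀ t i j, |(A0 t)⁻¹ i j| ≤ 2 ^ X) {e₀ : ℝ}
    (hbody : DF (tup p L N) (fun _ => Tx c X) (fun w => A0 fun j => th (w j.succ))
        (fun w => xv X (hgt (w 0)))
        (fun w => (b (w 0), (th (w 0), fun j : Fin N => th (w j.succ)))) ≤ e₀)
    {G : (Fin N → τ) → Prop} {a₀ : ℝ} (ha₀ : 0 < a₀)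
    (hG : ∀ t, G t → a₀ ≤ |A0 t i0 (bg i0 (A0 t))|)
    (hcol : ∀ w, 0 < tup p L N w → ∀ i, i ≠ i0 →
      A0 (fun j => th (w j.succ)) i (bg i0 (A0 fun j => th (w j.succ))) = 0)
    {m : ℝ} (hm : 0 < m) (hmG : m ≤ Pe (tup p L N) fun w => G fun j => th (w j.succ))
    {K : ℕ} (hK : 0 < K) :
    Real.log a₀ + X * Real.log 2 - (e₀ + |Cc c (c + 1)|) / m - Cc c c ≤
      (N + 1) * d / m + (c * Real.log (2 * C + 1) + c * Real.log (2 * C + 1)) +
      ((1 - h) * X * Real.log 2 + d + (1 / m / K + 1 / m * ϖ) *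
        (c * Real.log (4 * (C * 2 ^ X) + 1)) + Real.log (K + 1)) := by
  classical
  have hp := hH.law
  set q := tup p L N with hq
  have hqL : IsLaw q := tup_isLaw hp L N
  have hq0 := hqL.nonneg
  have him : Im q p (fun w => w 0) := im_tup hp.nonneg L N 0
  set ts : (Fin (N + 1) → Ω) → Fin N → τ := fun w j => th (w j.succ) with hts
  set Gw : (Fin (N + 1) → Ω) → Prop := fun w => G (ts w) with hGw
  set m' := Pe q Gw with hm'
  have hm'0 : 0 < m' := hm.trans_le hmG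
  have hmm : m ≤ m' := hmG
  set r := cond q Gw True with hr
  have hrL : IsLaw r := cond_law hq0 hm'0
  have hr0 := hrL.nonneg
  have hrq : ∀ w, 0 < r w → 0 < q w ∧ Gw w := fun w hw => by
    have := (cond_pos_iff hq0 Gw True w).1 hw
    exact ⟨this.1, of_eq_true this.2⟩
  have hrle : ∀ w, r w ≤ 1 / m * q w := fun w =>
    (cond_le hq0 w).trans (mul_le_mul_of_nonneg_right
      (one_div_le_one_div_of_le hm hmm) (hq0 w))
  have hd0 : 0 ≤ d := (MI_nonneg hp.nonneg _ _ _).trans hH.h0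
  have hNd : 0 ≤ ((N : ℝ) + 1) * d := by positivity
  have hdm : (N + 1) * d / m' ≤ (N + 1) * d / m := div_le_div_of_nonneg_left hNd hm hmm
  -- the informations
  have miN : ∀ {S : Type} (X' : Ω → S), MI q (fun w => X' (w 0)) ts (fun w => b (w 0)) ≤
      N * d := fun X' => tup_miN hp.nonneg hH.Lb hH.h0 X'
  set Y : (Fin (N + 1) → Ω) → B × (τ × (Fin N → τ)) :=
    fun w => (b (w 0), (th (w 0), fun j : Fin N => th (w j.succ))) with hY
  have hdG : Det q Y Gw := by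
    intro w w' a a' e
    simp only [hY, Prod.mk.injEq] at e
    simp only [hGw, hts]
    rw [e.2.2]
  -- the fibre
  set A : (Fin (N + 1) → Ω) → Matrix (Fin c) (Fin c) ℝ := fun w => A0 fun j => th (w j.succ)
    with hA
  have hdA : Det q Y A := by
    intro w w' _ _ e
    simp only [hY, Prod.mk.injEq] at e
    simp only [hA]
    rw [e.2.2]
  have hdA' : Det r Y A := fun w w' a b e => hdA w w' (hrq w a).1 (hrq w' b).1 e
  have f1 := DF_ev hqL (G := Gw) (T := fun _ => Tx c X) (V := A)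
    (fun w => xv X (hgt (w 0))) Y hdG (fun _ _ _ _ _ => rfl) hdA (fun _ => Tx_det c X)
    (fun w => hdet _) (c := (c : ℝ) + 1) (by positivity)
    (fun w => inc_of_inv (hinv _)) hm'0
  have f2 : DF r (fun _ => Tx c X) A (fun w => xv X (hgt (w 0))) Y ≤
      (e₀ + |Cc c (c + 1)|) / m := by
    refine f1.trans ?_
    have g1 : DF q (fun _ => Tx c X) A (fun w => xv X (hgt (w 0))) Y + |Cc c (c + 1)| ≤
        e₀ + |Cc c (c + 1)| := by linarith [hbody]
    have g2 : 0 ≤ DF q (fun _ => Tx c X) A (fun w => xv X (hgt (w 0))) Y + |Cc c (c + 1)| := by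
      have := DF_ge hqL.nonneg hqL.sum_one (T := fun _ => Tx c X) (V := A)
        (fun w => xv X (hgt (w 0))) Y (fun _ _ _ _ _ => rfl) hdA (fun _ => Tx_det c X)
        (fun w => hdet _) (c := (c : ℝ) + 1) (by positivity)
        (fun w => inc_of_inv (hinv _))
      have := le_abs_self (Cc c (c + 1))
      linarith
    calc _ ≤ (e₀ + |Cc c (c + 1)|) / m' := div_le_div_of_nonneg_right g1 hm'0.le
      _ ≤ (e₀ + |Cc c (c + 1)|) / m := div_le_div_of_nonneg_left (g2.trans g1) hm hmm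
  have f3 := fib hrL X (A := A) (fun w => hgt (w 0)) Y hdA' (fun w => hdet _)
    (fun w => hinv _) i0 (fun w => bg i0 (A w))
    (fun w w' a b e => by
      have := hdA' w w' a b e
      simp only [this]) (fun w => bg_ne i0 (hdet _))
  have f4 : Real.log a₀ ≤ Ex r (fun w => Real.log |A w i0 (bg i0 (A w))|) := by
    rw [← Ex_const hrL.sum_one (Real.log a₀)]
    refine Ex_mono hr0 fun w hw => ?_
    exact Real.log_le_log ha₀ (hG _ (hrq w hw).2)
  have f5 : CH r (fun w => hgt (w 0)) (fun w =>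
      (pr i0 (fun i => A w i (bg i0 (A w)) / A w i0 (bg i0 (A w))) (hgt (w 0)), Y w)) =
      CH r (fun w => hgt (w 0)) (fun w => (oth i0 (hgt (w 0)), Y w)) := by
    have g : ∀ w, 0 < r w → pr i0 (fun i => A w i (bg i0 (A w)) / A w i0 (bg i0 (A w)))
        (hgt (w 0)) = oth i0 (hgt (w 0)) := by
      intro w hw
      refine pr_oth i0 (fun i hi => ?_) _
      have := hcol w (hrq w hw).1 i hi
      simp only [hA]
      rw [this, zero_div]
    refine CH_congr hr0 (fun _ _ _ _ e => (Prod.ext_iff.mp e).1)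
      (fun _ _ _ _ e => (Prod.ext_iff.mp e).1) ?_ ?_
    · intro w w' a b e
      simp only [Prod.mk.injEq] at e ⊢
      rw [← g w a, ← g w' b]
      exact e
    · intro w w' a b e
      simp only [Prod.mk.injEq] at e ⊢
      rw [g w a, g w' b]
      exact e
  -- the slow digits
  have g1 := CH_fib hr0 (fun w => hgt (w 0)) (fun w => oth i0 (hgt (w 0)))
    (fun w => Wd (w 0)) Y (by
      intro w w' a b e
      have e1 := Prod.ext_iff.mp e
      have e2 : hgt (w 0) = hgt (w' 0) := e1.1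
      simp only [e2])
  have g2 : MI q (fun w => hgt (w 0)) (fun w => Wd (w 0)) Y ≤ (N + 1) * d := by
    have a1 : MI q (fun w => hgt (w 0)) (fun w => Wd (w 0)) Y ≤
        MI q (fun w => hgt (w 0)) (fun w => (Wd (w 0), ts w))
          (fun w => (th (w 0), b (w 0))) := by
      have b1 := MI_cond_right hq0 (X := fun w => hgt (w 0))
        (Y := fun w => (Wd (w 0), ts w)) (B := ts) (Z := fun w => (th (w 0), b (w 0)))
        (fun w w' _ _ e => (Prod.ext_iff.mp (Prod.ext_iff.mp e).1).2)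
      refine le_trans (le_of_eq ?_) b1
      refine MI_congr hq0 ?_ ?_ ?_ ?_ ?_ ?_ <;>
      · intro w w' _ _ e
        simp only [hY, hts, Prod.mk.injEq] at e ⊢
        tauto
    have a2 := MI_chain hq0 (fun w => hgt (w 0)) (fun w => Wd (w 0)) ts
      (fun w => (th (w 0), b (w 0)))
    have a3 : MI q (fun w => hgt (w 0)) (fun w => Wd (w 0))
        (fun w => (th (w 0), b (w 0))) ≤ d := by
      rw [him.MI hgt Wd (fun ω => (th ω, b ω))]
      exact hH.wd
    have a4 : MI q (fun w => hgt (w 0)) ts (fun w => (Wd (w 0), (th (w 0), b (w 0)))) ≤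
        N * d := by
      refine le_trans ?_ (miN (fun ω => (hgt ω, (Wd ω, th ω))))
      have b1 := MI_data hq0 (A := fun w => hgt (w 0)) (B := fun w => (Wd (w 0), th (w 0)))
        (X := fun w => (hgt (w 0), (Wd (w 0), th (w 0)))) (Y := ts)
        (Z := fun w => b (w 0))
        (fun w w' _ _ e => (Prod.ext_iff.mp (Prod.ext_iff.mp e).1).1)
        (fun w w' _ _ e => (Prod.ext_iff.mp (Prod.ext_iff.mp e).1).2)
      refine le_trans (le_of_eq ?_) b1
      refine MI_congr hq0 ?_ ?_ ?_ ?_ ?_ ?_ <;>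
      · intro w w' _ _ e
        simp only [Prod.mk.injEq] at e ⊢
        tauto
    linarith
  have g3 : MI r (fun w => hgt (w 0)) (fun w => Wd (w 0)) Y ≤ (N + 1) * d / m := by
    have := MI_ev hqL (G := Gw) (fun w => hgt (w 0)) (fun w => Wd (w 0)) Y
      (fun w w' a b e => hdG w w' a b (Prod.ext_iff.mp e).2) hm'0
    refine this.trans (le_trans ?_ hdm)
    exact div_le_div_of_nonneg_right g2 hm'0.le
  -- the exchange
  have hrp : ∀ w, 0 < r w → 0 < p (w 0) := fun w hw => him.pos hq0 (hrq w hw).1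
  have g4 := CH_exch hrL (fun w => hgt (w 0)) (fun w => Z (w 0))
    (fun w => oth i0 (hgt (w 0))) (fun w => oth i0 (Z (w 0)))
    (fun w => (Wd (w 0), Y w)) (a := C) (b := C) (by
      intro w w' a b e1 e2 i
      simp only [hY, Prod.mk.injEq] at e2
      exact hH.rel _ _ (hrp w a) (hrp w' b) e1 e2.1 e2.2.2.1 e2.2.1 i) (by
      intro w w' a b e1 e2 i
      simp only [hY, Prod.mk.injEq] at e2
      exact hH.rel2 _ _ (hrp w a) (hrp w' b) e1 e2.1 e2.2.2.1 e2.2.1 i)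
  -- the record
  have g5 : CH r (fun w => Z (w 0)) (fun w => (oth i0 (Z (w 0)), (Wd (w 0), Y w))) ≤
      CH r (fun w => Z (w 0)) (fun w => (oth i0 (Z (w 0)), (Wd (w 0), S (w 0)))) := by
    refine CH_mono_cond hr0 fun w w' a b e => ?_
    simp only [hY, Prod.mk.injEq] at e ⊢
    exact ⟨e.1, e.2.1, hH.SY _ _ (hrp w a) (hrp w' b)
      (Prod.ext e.2.1 (Prod.ext e.2.2.2.1 e.2.2.1))⟩
  have hall : ∀ q' : Ω → ℝ, IsLaw q' → (∀ ω, 0 < q' ω → 0 < p ω) →
      CH q' Z (fun ω => (oth i0 (Z ω), (Wd ω, S ω))) ≤ c * Real.log (4 * (C * 2 ^ X) + 1) :=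
    fun q' hq' _ => CH_cnt hq' Z _ fun ω _ i => hH.Z_b ω i
  have hGn : 0 ≤ (c : ℝ) * Real.log (4 * (C * 2 ^ X) + 1) := by
    have : 0 ≤ Real.log (4 * (C * 2 ^ X) + 1) := Real.log_nonneg (by
      have : (0 : ℝ) ≤ C * 2 ^ X := by positivity
      linarith)
    positivity
  have hb1n : 0 ≤ (1 - h) * X * Real.log 2 + d := by
    have h2 : 0 ≤ 1 - h := by linarith
    have := Real.log_nonneg (show (1 : ℝ) ≤ 2 by norm_num)
    positivity
  have hup : CH r (fun w => Z (w 0)) (fun w => (oth i0 (Z (w 0)), (Wd (w 0), S (w 0)))) ≤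
      (1 - h) * X * Real.log 2 + d + (1 / m / K + 1 / m * ϖ) *
        (c * Real.log (4 * (C * 2 ^ X) + 1)) + Real.log (K + 1) :=
    up_up him hp hrL (F := 1 / m) (m₀ := ϖ) (by positivity) hrle hϖ.le hb1n hGn Z
      (fun ω => (oth i0 (Z ω), (Wd ω, S ω))) (fun B hB _ => hH.nf B hB) hall hK
  linarith

end Pool.FS21
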